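import Pool.Agent.helper12.GS.Pm

/-!
Generated: constants of the corner programs of the table Q100a.
-/

namespace Pool.Agent.helper12.K100

open Pool.Agent.helper31.IA (Z)
open Pool.Agent.helper12.GS

def p0 : Pm where
  ec := ⟨9999220736, 0, 0, 0⟩
  bc := ⟨0, 0, 0, 0⟩
  nn := ⟨1099511627776, 0, 0, 0⟩
  tj := ⟨4398046511104, 0, 0, 0⟩
  ca := ⟨1099511627776, 0, 0, 0⟩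
  cb := ⟨879662989312, 0, 0, 0⟩
  cc := ⟨0, 0, 0, 0⟩
  ax := ⟨0, 0, 0, 0⟩
  ay := ⟨0, 0, 0, 0⟩
  xa := ⟨0, 0, 0, 0⟩
  C2 := ⟨0, 0, 0, 0⟩
  wr := ⟨0, 745445261312, 0, 0⟩
  wi := ⟨5872294035456, 0, 0, 0⟩
  w1 := ⟨0, 40973988003840, 0, 0⟩
  h000 := ⟨0, 2870490496, 0, 0⟩
  h001 := ⟨0, 5453288960, 0, 0⟩
  h002 := ⟨23746943488, 0, 0, 0⟩
  h003 := ⟨0, 35097650240, 0, 0⟩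
  h010 := ⟨0, 1104418333888, 0, 0⟩
  h011 := ⟨0, 153407063616, 0, 0⟩
  h012 := ⟨0, 0, 0, 0⟩
  h020 := ⟨51486161619328, 0, 0, 0⟩
  h021 := ⟨0, 0, 0, 0⟩
  h030 := ⟨0, 0, 0, 0⟩
  h100 := ⟨0, 261787584, 0, 0⟩
  h101 := ⟨243981568, 0, 0, 0⟩
  h102 := ⟨0, 476635072, 0, 0⟩
  h110 := ⟨0, 143339214080, 0, 0⟩
  h111 := ⟨0, 359866960256, 0, 0⟩
  h120 := ⟨0, 0, 0, 0⟩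
  h200 := ⟨0, 135675328, 0, 0⟩
  h201 := ⟨0, 354055424, 0, 0⟩
  h202 := ⟨780366016, 0, 0, 0⟩
  h210 := ⟨40707091648, 0, 0, 0⟩
  h211 := ⟨0, 0, 0, 0⟩
  h300 := ⟨67049280, 0, 0, 0⟩
  h301 := ⟨20811456, 0, 0, 0⟩
  h310 := ⟨0, 9857520448, 0, 0⟩
  h400 := ⟨0, 7790016, 0, 0⟩
  h401 := ⟨0, 8563904, 0, 0⟩
  h410 := ⟨0, 0, 0, 0⟩
  h500 := ⟨858624, 0, 0, 0⟩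
  h501 := ⟨0, 0, 0, 0⟩
  h600 := ⟨0, 7040, 0, 0⟩
  h700 := ⟨0, 0, 0, 0⟩
  h800 := ⟨0, 0, 0, 0⟩
  m000 := ⟨1096553136128, 0, 0, 0⟩
  m001 := ⟨0, 982843392, 0, 0⟩
  m002 := ⟨5247467520, 0, 0, 0⟩
  m010 := ⟨401779392512, 0, 0, 0⟩
  m100 := ⟨6498942976, 0, 0, 0⟩
  m101 := ⟨0, 48889856, 0, 0⟩
  m110 := ⟨497630838784, 0, 0, 0⟩
  m200 := ⟨0, 358481920, 0, 0⟩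
  m300 := ⟨52166656, 0, 0, 0⟩
  a00 := ⟨115257966592, 0, 0, 0⟩
  a01 := ⟨145726570496, 0, 0, 0⟩
  a02 := ⟨98520203264, 0, 0, 0⟩
  a03 := ⟨412677636096, 0, 0, 0⟩
  a10 := ⟨10650790330368, 0, 0, 0⟩
  a11 := ⟨0, 49230900232192, 0, 0⟩
  b00 := ⟨95629475840, 0, 0, 0⟩
  b01 := ⟨88282169344, 0, 0, 0⟩
  b02 := ⟨225362903040, 0, 0, 0⟩
  b03 := ⟨0, 216191139840, 0, 0⟩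
  b10 := ⟨7164126232576, 0, 0, 0⟩
  b11 := ⟨0, 38680265555968, 0, 0⟩
  t00 := ⟨1297573478400, 0, 0, 0⟩
  t01 := ⟨0, 192759398400, 0, 0⟩
  t02 := ⟨4094299930624, 0, 0, 0⟩
  t03 := ⟨0, 11110171475968, 0, 0⟩
  t10 := ⟨111283404537856, 0, 0, 0⟩
  t11 := ⟨0, 430796890439680, 0, 0⟩
  s00 := ⟨1679998844928, 0, 0, 0⟩
  s01 := ⟨1515795578880, 0, 0, 0⟩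
  s02 := ⟨0, 380250554368, 0, 0⟩
  s03 := ⟨0, 7044112449536, 0, 0⟩
  s10 := ⟨0, 352536100864, 0, 0⟩
  s11 := ⟨85960894578688, 0, 0, 0⟩
  g00 := ⟨47951400192, 0, 0, 0⟩
  g01 := ⟨0, 16252709120, 0, 0⟩
  g10 := ⟨7120625037824, 0, 0, 0⟩
  g11 := ⟨0, 0, 0, 0⟩
  f00 := ⟨56195246528, 0, 0, 0⟩
  f01 := ⟨157377140352, 0, 0, 0⟩
  f10 := ⟨26838333179776, 0, 0, 0⟩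
  f11 := ⟨0, 0, 0, 0⟩
  l000 := ⟨0, 0, 0, 0⟩
  l001 := ⟨0, 0, 0, 0⟩
  l002 := ⟨0, 0, 0, 0⟩
  l010 := ⟨0, 0, 0, 0⟩
  l011 := ⟨0, 0, 0, 0⟩
  l020 := ⟨0, 0, 0, 0⟩
  l100 := ⟨0, 0, 0, 0⟩
  l101 := ⟨0, 0, 0, 0⟩
  l102 := ⟨0, 0, 0, 0⟩
  l110 := ⟨0, 0, 0, 0⟩
  l111 := ⟨0, 0, 0, 0⟩
  l120 := ⟨0, 0, 0, 0⟩
  l200 := ⟨0, 0, 0, 0⟩
  l201 := ⟨0, 0, 0, 0⟩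
  l210 := ⟨0, 0, 0, 0⟩
  l300 := ⟨0, 0, 0, 0⟩
  l301 := ⟨0, 0, 0, 0⟩
  l310 := ⟨0, 0, 0, 0⟩
  l400 := ⟨0, 0, 0, 0⟩
  l401 := ⟨0, 0, 0, 0⟩
  l410 := ⟨0, 0, 0, 0⟩
  l500 := ⟨0, 0, 0, 0⟩
  l501 := ⟨0, 0, 0, 0⟩
  l510 := ⟨0, 0, 0, 0⟩
  l600 := ⟨0, 0, 0, 0⟩
  l700 := ⟨0, 0, 0, 0⟩
  l800 := ⟨0, 0, 0, 0⟩
  l900 := ⟨0, 0, 0, 0⟩
  l1000 := ⟨0, 0, 0, 0⟩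
  l1100 := ⟨0, 0, 0, 0⟩
  q00 := ⟨0, 0, 0, 0⟩
  q01 := ⟨0, 0, 0, 0⟩
  q02 := ⟨0, 0, 0, 0⟩
  q03 := ⟨0, 0, 0, 0⟩
  q10 := ⟨0, 0, 0, 0⟩
  q11 := ⟨0, 0, 0, 0⟩
  q12 := ⟨0, 0, 0, 0⟩
  q20 := ⟨0, 0, 0, 0⟩
  q21 := ⟨0, 0, 0, 0⟩
  q30 := ⟨0, 0, 0, 0⟩
  n000 := ⟨0, 0, 0, 0⟩
  n001 := ⟨0, 0, 0, 0⟩
  n002 := ⟨0, 0, 0, 0⟩
  n010 := ⟨0, 0, 0, 0⟩
  n011 := ⟨0, 0, 0, 0⟩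
  n020 := ⟨0, 0, 0, 0⟩
  n100 := ⟨0, 0, 0, 0⟩
  n101 := ⟨0, 0, 0, 0⟩
  n110 := ⟨0, 0, 0, 0⟩
  n200 := ⟨0, 0, 0, 0⟩
  n201 := ⟨0, 0, 0, 0⟩
  n210 := ⟨0, 0, 0, 0⟩
  n300 := ⟨0, 0, 0, 0⟩
  n400 := ⟨0, 0, 0, 0⟩
  n500 := ⟨0, 0, 0, 0⟩
  e00 := ⟨0, 0, 0, 0⟩
  e01 := ⟨0, 0, 0, 0⟩
  e02 := ⟨0, 0, 0, 0⟩
  e03 := ⟨0, 0, 0, 0⟩
  e10 := ⟨0, 0, 0, 0⟩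
  e11 := ⟨0, 0, 0, 0⟩
  B1 := 0

def p1 : Pm where
  ec := ⟨9999220736, 0, 0, 0⟩
  bc := ⟨0, 0, 0, 0⟩
  nn := ⟨2199023255552, 0, 0, 0⟩
  tj := ⟨6597069766656, 0, 0, 0⟩
  ca := ⟨879662989312, 0, 0, 0⟩
  cb := ⟨769604452352, 0, 0, 0⟩
  cc := ⟨0, 0, 0, 0⟩
  ax := ⟨0, 0, 0, 0⟩
  ay := ⟨0, 0, 0, 0⟩
  xa := ⟨0, 0, 0, 0⟩
  C2 := ⟨0, 0, 0, 0⟩
  wr := ⟨0, 745445261312, 0, 0⟩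
  wi := ⟨5872294035456, 0, 0, 0⟩
  w1 := ⟨0, 40973988003840, 0, 0⟩
  h000 := ⟨0, 2870490496, 0, 0⟩
  h001 := ⟨0, 5453288960, 0, 0⟩
  h002 := ⟨23746943488, 0, 0, 0⟩
  h003 := ⟨0, 35097650240, 0, 0⟩
  h010 := ⟨0, 1104418333888, 0, 0⟩
  h011 := ⟨0, 153407063616, 0, 0⟩
  h012 := ⟨0, 0, 0, 0⟩
  h020 := ⟨51486161619328, 0, 0, 0⟩
  h021 := ⟨0, 0, 0, 0⟩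
  h030 := ⟨0, 0, 0, 0⟩
  h100 := ⟨0, 261787584, 0, 0⟩
  h101 := ⟨243981568, 0, 0, 0⟩
  h102 := ⟨0, 476635072, 0, 0⟩
  h110 := ⟨0, 143339214080, 0, 0⟩
  h111 := ⟨0, 359866960256, 0, 0⟩
  h120 := ⟨0, 0, 0, 0⟩
  h200 := ⟨0, 135675328, 0, 0⟩
  h201 := ⟨0, 354055424, 0, 0⟩
  h202 := ⟨780366016, 0, 0, 0⟩
  h210 := ⟨40707091648, 0, 0, 0⟩
  h211 := ⟨0, 0, 0, 0⟩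
  h300 := ⟨67049280, 0, 0, 0⟩
  h301 := ⟨20811456, 0, 0, 0⟩
  h310 := ⟨0, 9857520448, 0, 0⟩
  h400 := ⟨0, 7790016, 0, 0⟩
  h401 := ⟨0, 8563904, 0, 0⟩
  h410 := ⟨0, 0, 0, 0⟩
  h500 := ⟨858624, 0, 0, 0⟩
  h501 := ⟨0, 0, 0, 0⟩
  h600 := ⟨0, 7040, 0, 0⟩
  h700 := ⟨0, 0, 0, 0⟩
  h800 := ⟨0, 0, 0, 0⟩
  m000 := ⟨1097008480256, 0, 0, 0⟩
  m001 := ⟨0, 631504896, 0, 0⟩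
  m002 := ⟨3345088512, 0, 0, 0⟩
  m010 := ⟨389600378880, 0, 0, 0⟩
  m100 := ⟨6323175424, 0, 0, 0⟩
  m101 := ⟨0, 33226752, 0, 0⟩
  m110 := ⟨494015086592, 0, 0, 0⟩
  m200 := ⟨0, 324403200, 0, 0⟩
  m300 := ⟨47054848, 0, 0, 0⟩
  a00 := ⟨95629475840, 0, 0, 0⟩
  a01 := ⟨88282169344, 0, 0, 0⟩
  a02 := ⟨225362903040, 0, 0, 0⟩
  a03 := ⟨0, 216191139840, 0, 0⟩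
  a10 := ⟨7164126232576, 0, 0, 0⟩
  a11 := ⟨0, 38680265555968, 0, 0⟩
  b00 := ⟨85557248000, 0, 0, 0⟩
  b01 := ⟨51200000000, 0, 0, 0⟩
  b02 := ⟨306742624256, 0, 0, 0⟩
  b03 := ⟨0, 581878022144, 0, 0⟩
  b10 := ⟨4612080140288, 0, 0, 0⟩
  b11 := ⟨0, 30938653655040, 0, 0⟩
  t00 := ⟨1077487861760, 0, 0, 0⟩
  t01 := ⟨0, 62371135488, 0, 0⟩
  t02 := ⟨3444578975744, 0, 0, 0⟩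
  t03 := ⟨0, 11323244937216, 0, 0⟩
  t10 := ⟨74539127472128, 0, 0, 0⟩
  t11 := ⟨0, 324759742251008, 0, 0⟩
  s00 := ⟨2977572323328, 0, 0, 0⟩
  s01 := ⟨1323036180480, 0, 0, 0⟩
  s02 := ⟨3714049376256, 0, 0, 0⟩
  s03 := ⟨0, 18154283925504, 0, 0⟩
  s10 := ⟨110930868436992, 0, 0, 0⟩
  s11 := ⟨0, 344835995860992, 0, 0⟩
  g00 := ⟨47951400192, 0, 0, 0⟩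
  g01 := ⟨0, 16252709120, 0, 0⟩
  g10 := ⟨7120625037824, 0, 0, 0⟩
  g11 := ⟨0, 0, 0, 0⟩
  f00 := ⟨56195246528, 0, 0, 0⟩
  f01 := ⟨157377140352, 0, 0, 0⟩
  f10 := ⟨26838333179776, 0, 0, 0⟩
  f11 := ⟨0, 0, 0, 0⟩
  l000 := ⟨0, 0, 0, 0⟩
  l001 := ⟨0, 0, 0, 0⟩
  l002 := ⟨0, 0, 0, 0⟩
  l010 := ⟨0, 0, 0, 0⟩
  l011 := ⟨0, 0, 0, 0⟩
  l020 := ⟨0, 0, 0, 0⟩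
  l100 := ⟨0, 0, 0, 0⟩
  l101 := ⟨0, 0, 0, 0⟩
  l102 := ⟨0, 0, 0, 0⟩
  l110 := ⟨0, 0, 0, 0⟩
  l111 := ⟨0, 0, 0, 0⟩
  l120 := ⟨0, 0, 0, 0⟩
  l200 := ⟨0, 0, 0, 0⟩
  l201 := ⟨0, 0, 0, 0⟩
  l210 := ⟨0, 0, 0, 0⟩
  l300 := ⟨0, 0, 0, 0⟩
  l301 := ⟨0, 0, 0, 0⟩
  l310 := ⟨0, 0, 0, 0⟩
  l400 := ⟨0, 0, 0, 0⟩
  l401 := ⟨0, 0, 0, 0⟩
  l410 := ⟨0, 0, 0, 0⟩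
  l500 := ⟨0, 0, 0, 0⟩
  l501 := ⟨0, 0, 0, 0⟩
  l510 := ⟨0, 0, 0, 0⟩
  l600 := ⟨0, 0, 0, 0⟩
  l700 := ⟨0, 0, 0, 0⟩
  l800 := ⟨0, 0, 0, 0⟩
  l900 := ⟨0, 0, 0, 0⟩
  l1000 := ⟨0, 0, 0, 0⟩
  l1100 := ⟨0, 0, 0, 0⟩
  q00 := ⟨0, 0, 0, 0⟩
  q01 := ⟨0, 0, 0, 0⟩
  q02 := ⟨0, 0, 0, 0⟩
  q03 := ⟨0, 0, 0, 0⟩
  q10 := ⟨0, 0, 0, 0⟩
  q11 := ⟨0, 0, 0, 0⟩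
  q12 := ⟨0, 0, 0, 0⟩
  q20 := ⟨0, 0, 0, 0⟩
  q21 := ⟨0, 0, 0, 0⟩
  q30 := ⟨0, 0, 0, 0⟩
  n000 := ⟨0, 0, 0, 0⟩
  n001 := ⟨0, 0, 0, 0⟩
  n002 := ⟨0, 0, 0, 0⟩
  n010 := ⟨0, 0, 0, 0⟩
  n011 := ⟨0, 0, 0, 0⟩
  n020 := ⟨0, 0, 0, 0⟩
  n100 := ⟨0, 0, 0, 0⟩
  n101 := ⟨0, 0, 0, 0⟩
  n110 := ⟨0, 0, 0, 0⟩
  n200 := ⟨0, 0, 0, 0⟩
  n201 := ⟨0, 0, 0, 0⟩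
  n210 := ⟨0, 0, 0, 0⟩
  n300 := ⟨0, 0, 0, 0⟩
  n400 := ⟨0, 0, 0, 0⟩
  n500 := ⟨0, 0, 0, 0⟩
  e00 := ⟨0, 0, 0, 0⟩
  e01 := ⟨0, 0, 0, 0⟩
  e02 := ⟨0, 0, 0, 0⟩
  e03 := ⟨0, 0, 0, 0⟩
  e10 := ⟨0, 0, 0, 0⟩
  e11 := ⟨0, 0, 0, 0⟩
  B1 := 0

def p2 : Pm where
  ec := ⟨9999220736, 0, 0, 0⟩
  bc := ⟨0, 0, 0, 0⟩
  nn := ⟨3298534883328, 0, 0, 0⟩
  tj := ⟨8796093022208, 0, 0, 0⟩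
  ca := ⟨769604452352, 0, 0, 0⟩
  cb := ⟨659814350848, 0, 0, 0⟩
  cc := ⟨0, 0, 0, 0⟩
  ax := ⟨0, 0, 0, 0⟩
  ay := ⟨0, 0, 0, 0⟩
  xa := ⟨0, 0, 0, 0⟩
  C2 := ⟨0, 0, 0, 0⟩
  wr := ⟨0, 745445261312, 0, 0⟩
  wi := ⟨5872294035456, 0, 0, 0⟩
  w1 := ⟨0, 40973988003840, 0, 0⟩
  h000 := ⟨0, 2870490496, 0, 0⟩
  h001 := ⟨0, 5453288960, 0, 0⟩
  h002 := ⟨23746943488, 0, 0, 0⟩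
  h003 := ⟨0, 35097650240, 0, 0⟩
  h010 := ⟨0, 1104418333888, 0, 0⟩
  h011 := ⟨0, 153407063616, 0, 0⟩
  h012 := ⟨0, 0, 0, 0⟩
  h020 := ⟨51486161619328, 0, 0, 0⟩
  h021 := ⟨0, 0, 0, 0⟩
  h030 := ⟨0, 0, 0, 0⟩
  h100 := ⟨0, 261787584, 0, 0⟩
  h101 := ⟨243981568, 0, 0, 0⟩
  h102 := ⟨0, 476635072, 0, 0⟩
  h110 := ⟨0, 143339214080, 0, 0⟩
  h111 := ⟨0, 359866960256, 0, 0⟩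
  h120 := ⟨0, 0, 0, 0⟩
  h200 := ⟨0, 135675328, 0, 0⟩
  h201 := ⟨0, 354055424, 0, 0⟩
  h202 := ⟨780366016, 0, 0, 0⟩
  h210 := ⟨40707091648, 0, 0, 0⟩
  h211 := ⟨0, 0, 0, 0⟩
  h300 := ⟨67049280, 0, 0, 0⟩
  h301 := ⟨20811456, 0, 0, 0⟩
  h310 := ⟨0, 9857520448, 0, 0⟩
  h400 := ⟨0, 7790016, 0, 0⟩
  h401 := ⟨0, 8563904, 0, 0⟩
  h410 := ⟨0, 0, 0, 0⟩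
  h500 := ⟨858624, 0, 0, 0⟩
  h501 := ⟨0, 0, 0, 0⟩
  h600 := ⟨0, 7040, 0, 0⟩
  h700 := ⟨0, 0, 0, 0⟩
  h800 := ⟨0, 0, 0, 0⟩
  m000 := ⟨1097407201280, 0, 0, 0⟩
  m001 := ⟨0, 83623936, 0, 0⟩
  m002 := ⟨416415744, 0, 0, 0⟩
  m010 := ⟨264461549568, 0, 0, 0⟩
  m100 := ⟨6173556736, 0, 0, 0⟩
  m101 := ⟨0, 7602176, 0, 0⟩
  m110 := ⟨503498211328, 0, 0, 0⟩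
  m200 := ⟨0, 294715392, 0, 0⟩
  m300 := ⟨42663936, 0, 0, 0⟩
  a00 := ⟨85557248000, 0, 0, 0⟩
  a01 := ⟨51200000000, 0, 0, 0⟩
  a02 := ⟨306742624256, 0, 0, 0⟩
  a03 := ⟨0, 581878022144, 0, 0⟩
  a10 := ⟨4612080140288, 0, 0, 0⟩
  a11 := ⟨0, 30938653655040, 0, 0⟩
  b00 := ⟨77050019840, 0, 0, 0⟩
  b01 := ⟨25400049664, 0, 0, 0⟩
  b02 := ⟨345817939968, 0, 0, 0⟩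
  b03 := ⟨0, 802693185536, 0, 0⟩
  b10 := ⟨2551793844224, 0, 0, 0⟩
  b11 := ⟨0, 23854350467072, 0, 0⟩
  t00 := ⟨964627202048, 0, 0, 0⟩
  t01 := ⟨0, 287362777088, 0, 0⟩
  t02 := ⟨4946899828736, 0, 0, 0⟩
  t03 := ⟨0, 15849820258304, 0, 0⟩
  t10 := ⟨46951048347648, 0, 0, 0⟩
  t11 := ⟨0, 244470844489728, 0, 0⟩
  s00 := ⟨4055060185088, 0, 0, 0⟩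
  s01 := ⟨1260665044992, 0, 0, 0⟩
  s02 := ⟨7158628352000, 0, 0, 0⟩
  s03 := ⟨0, 29477528862720, 0, 0⟩
  s10 := ⟨185469995909120, 0, 0, 0⟩
  s11 := ⟨0, 669595738112000, 0, 0⟩
  g00 := ⟨47951400192, 0, 0, 0⟩
  g01 := ⟨0, 16252709120, 0, 0⟩
  g10 := ⟨7120625037824, 0, 0, 0⟩
  g11 := ⟨0, 0, 0, 0⟩
  f00 := ⟨56195246528, 0, 0, 0⟩
  f01 := ⟨157377140352, 0, 0, 0⟩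
  f10 := ⟨26838333179776, 0, 0, 0⟩
  f11 := ⟨0, 0, 0, 0⟩
  l000 := ⟨0, 0, 0, 0⟩
  l001 := ⟨0, 0, 0, 0⟩
  l002 := ⟨0, 0, 0, 0⟩
  l010 := ⟨0, 0, 0, 0⟩
  l011 := ⟨0, 0, 0, 0⟩
  l020 := ⟨0, 0, 0, 0⟩
  l100 := ⟨0, 0, 0, 0⟩
  l101 := ⟨0, 0, 0, 0⟩
  l102 := ⟨0, 0, 0, 0⟩
  l110 := ⟨0, 0, 0, 0⟩
  l111 := ⟨0, 0, 0, 0⟩
  l120 := ⟨0, 0, 0, 0⟩
  l200 := ⟨0, 0, 0, 0⟩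
  l201 := ⟨0, 0, 0, 0⟩
  l210 := ⟨0, 0, 0, 0⟩
  l300 := ⟨0, 0, 0, 0⟩
  l301 := ⟨0, 0, 0, 0⟩
  l310 := ⟨0, 0, 0, 0⟩
  l400 := ⟨0, 0, 0, 0⟩
  l401 := ⟨0, 0, 0, 0⟩
  l410 := ⟨0, 0, 0, 0⟩
  l500 := ⟨0, 0, 0, 0⟩
  l501 := ⟨0, 0, 0, 0⟩
  l510 := ⟨0, 0, 0, 0⟩
  l600 := ⟨0, 0, 0, 0⟩
  l700 := ⟨0, 0, 0, 0⟩
  l800 := ⟨0, 0, 0, 0⟩
  l900 := ⟨0, 0, 0, 0⟩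
  l1000 := ⟨0, 0, 0, 0⟩
  l1100 := ⟨0, 0, 0, 0⟩
  q00 := ⟨0, 0, 0, 0⟩
  q01 := ⟨0, 0, 0, 0⟩
  q02 := ⟨0, 0, 0, 0⟩
  q03 := ⟨0, 0, 0, 0⟩
  q10 := ⟨0, 0, 0, 0⟩
  q11 := ⟨0, 0, 0, 0⟩
  q12 := ⟨0, 0, 0, 0⟩
  q20 := ⟨0, 0, 0, 0⟩
  q21 := ⟨0, 0, 0, 0⟩
  q30 := ⟨0, 0, 0, 0⟩
  n000 := ⟨0, 0, 0, 0⟩
  n001 := ⟨0, 0, 0, 0⟩
  n002 := ⟨0, 0, 0, 0⟩
  n010 := ⟨0, 0, 0, 0⟩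
  n011 := ⟨0, 0, 0, 0⟩
  n020 := ⟨0, 0, 0, 0⟩
  n100 := ⟨0, 0, 0, 0⟩
  n101 := ⟨0, 0, 0, 0⟩
  n110 := ⟨0, 0, 0, 0⟩
  n200 := ⟨0, 0, 0, 0⟩
  n201 := ⟨0, 0, 0, 0⟩
  n210 := ⟨0, 0, 0, 0⟩
  n300 := ⟨0, 0, 0, 0⟩
  n400 := ⟨0, 0, 0, 0⟩
  n500 := ⟨0, 0, 0, 0⟩
  e00 := ⟨0, 0, 0, 0⟩
  e01 := ⟨0, 0, 0, 0⟩
  e02 := ⟨0, 0, 0, 0⟩
  e03 := ⟨0, 0, 0, 0⟩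
  e10 := ⟨0, 0, 0, 0⟩
  e11 := ⟨0, 0, 0, 0⟩
  B1 := 0

def p3 : Pm where
  ec := ⟨9999220736, 0, 0, 0⟩
  bc := ⟨0, 0, 0, 0⟩
  nn := ⟨4398046511104, 0, 0, 0⟩
  tj := ⟨10995116277760, 0, 0, 0⟩
  ca := ⟨659814350848, 0, 0, 0⟩
  cb := ⟨549755813888, 0, 0, 0⟩
  cc := ⟨0, 0, 0, 0⟩
  ax := ⟨0, 0, 0, 0⟩
  ay := ⟨0, 0, 0, 0⟩
  xa := ⟨0, 0, 0, 0⟩
  C2 := ⟨0, 0, 0, 0⟩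
  wr := ⟨0, 745445261312, 0, 0⟩
  wi := ⟨5872294035456, 0, 0, 0⟩
  w1 := ⟨0, 40973988003840, 0, 0⟩
  h000 := ⟨0, 2870490496, 0, 0⟩
  h001 := ⟨0, 5453288960, 0, 0⟩
  h002 := ⟨23746943488, 0, 0, 0⟩
  h003 := ⟨0, 35097650240, 0, 0⟩
  h010 := ⟨0, 1104418333888, 0, 0⟩
  h011 := ⟨0, 153407063616, 0, 0⟩
  h012 := ⟨0, 0, 0, 0⟩
  h020 := ⟨51486161619328, 0, 0, 0⟩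
  h021 := ⟨0, 0, 0, 0⟩
  h030 := ⟨0, 0, 0, 0⟩
  h100 := ⟨0, 261787584, 0, 0⟩
  h101 := ⟨243981568, 0, 0, 0⟩
  h102 := ⟨0, 476635072, 0, 0⟩
  h110 := ⟨0, 143339214080, 0, 0⟩
  h111 := ⟨0, 359866960256, 0, 0⟩
  h120 := ⟨0, 0, 0, 0⟩
  h200 := ⟨0, 135675328, 0, 0⟩
  h201 := ⟨0, 354055424, 0, 0⟩
  h202 := ⟨780366016, 0, 0, 0⟩
  h210 := ⟨40707091648, 0, 0, 0⟩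
  h211 := ⟨0, 0, 0, 0⟩
  h300 := ⟨67049280, 0, 0, 0⟩
  h301 := ⟨20811456, 0, 0, 0⟩
  h310 := ⟨0, 9857520448, 0, 0⟩
  h400 := ⟨0, 7790016, 0, 0⟩
  h401 := ⟨0, 8563904, 0, 0⟩
  h410 := ⟨0, 0, 0, 0⟩
  h500 := ⟨858624, 0, 0, 0⟩
  h501 := ⟨0, 0, 0, 0⟩
  h600 := ⟨0, 7040, 0, 0⟩
  h700 := ⟨0, 0, 0, 0⟩
  h800 := ⟨0, 0, 0, 0⟩
  m000 := ⟨1097913663488, 0, 0, 0⟩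
  m001 := ⟨0, 82247680, 0, 0⟩
  m002 := ⟨1835008, 0, 0, 0⟩
  m010 := ⟨250301186048, 0, 0, 0⟩
  m100 := ⟨5982191616, 0, 0, 0⟩
  m101 := ⟨7864320, 0, 0, 0⟩
  m110 := ⟨508915613696, 0, 0, 0⟩
  m200 := ⟨0, 254017536, 0, 0⟩
  m300 := ⟨36962304, 0, 0, 0⟩
  a00 := ⟨77050019840, 0, 0, 0⟩
  a01 := ⟨25400049664, 0, 0, 0⟩
  a02 := ⟨345817939968, 0, 0, 0⟩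
  a03 := ⟨0, 802693185536, 0, 0⟩
  a10 := ⟨2551793844224, 0, 0, 0⟩
  a11 := ⟨0, 23854350467072, 0, 0⟩
  b00 := ⟨69863735296, 0, 0, 0⟩
  b01 := ⟨8936488960, 0, 0, 0⟩
  b02 := ⟨332305268736, 0, 0, 0⟩
  b03 := ⟨0, 839640743936, 0, 0⟩
  b10 := ⟨976034922496, 0, 0, 0⟩
  b11 := ⟨0, 18580457193472, 0, 0⟩
  t00 := ⟨869116149760, 0, 0, 0⟩
  t01 := ⟨0, 332035325952, 0, 0⟩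
  t02 := ⟨5095224508416, 0, 0, 0⟩
  t03 := ⟨0, 17253261901824, 0, 0⟩
  t10 := ⟨24619110629376, 0, 0, 0⟩
  t11 := ⟨0, 173274686160896, 0, 0⟩
  s00 := ⟨5019687387136, 0, 0, 0⟩
  s01 := ⟨973302267904, 0, 0, 0⟩
  s02 := ⟨12105528180736, 0, 0, 0⟩
  s03 := ⟨0, 45327349121024, 0, 0⟩
  s10 := ⟨232421044256768, 0, 0, 0⟩
  s11 := ⟨0, 914066582601728, 0, 0⟩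
  g00 := ⟨47951400192, 0, 0, 0⟩
  g01 := ⟨0, 16252709120, 0, 0⟩
  g10 := ⟨7120625037824, 0, 0, 0⟩
  g11 := ⟨0, 0, 0, 0⟩
  f00 := ⟨56195246528, 0, 0, 0⟩
  f01 := ⟨157377140352, 0, 0, 0⟩
  f10 := ⟨26838333179776, 0, 0, 0⟩
  f11 := ⟨0, 0, 0, 0⟩
  l000 := ⟨0, 0, 0, 0⟩
  l001 := ⟨0, 0, 0, 0⟩
  l002 := ⟨0, 0, 0, 0⟩
  l010 := ⟨0, 0, 0, 0⟩
  l011 := ⟨0, 0, 0, 0⟩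
  l020 := ⟨0, 0, 0, 0⟩
  l100 := ⟨0, 0, 0, 0⟩
  l101 := ⟨0, 0, 0, 0⟩
  l102 := ⟨0, 0, 0, 0⟩
  l110 := ⟨0, 0, 0, 0⟩
  l111 := ⟨0, 0, 0, 0⟩
  l120 := ⟨0, 0, 0, 0⟩
  l200 := ⟨0, 0, 0, 0⟩
  l201 := ⟨0, 0, 0, 0⟩
  l210 := ⟨0, 0, 0, 0⟩
  l300 := ⟨0, 0, 0, 0⟩
  l301 := ⟨0, 0, 0, 0⟩
  l310 := ⟨0, 0, 0, 0⟩
  l400 := ⟨0, 0, 0, 0⟩
  l401 := ⟨0, 0, 0, 0⟩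
  l410 := ⟨0, 0, 0, 0⟩
  l500 := ⟨0, 0, 0, 0⟩
  l501 := ⟨0, 0, 0, 0⟩
  l510 := ⟨0, 0, 0, 0⟩
  l600 := ⟨0, 0, 0, 0⟩
  l700 := ⟨0, 0, 0, 0⟩
  l800 := ⟨0, 0, 0, 0⟩
  l900 := ⟨0, 0, 0, 0⟩
  l1000 := ⟨0, 0, 0, 0⟩
  l1100 := ⟨0, 0, 0, 0⟩
  q00 := ⟨0, 0, 0, 0⟩
  q01 := ⟨0, 0, 0, 0⟩
  q02 := ⟨0, 0, 0, 0⟩
  q03 := ⟨0, 0, 0, 0⟩
  q10 := ⟨0, 0, 0, 0⟩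
  q11 := ⟨0, 0, 0, 0⟩
  q12 := ⟨0, 0, 0, 0⟩
  q20 := ⟨0, 0, 0, 0⟩
  q21 := ⟨0, 0, 0, 0⟩
  q30 := ⟨0, 0, 0, 0⟩
  n000 := ⟨0, 0, 0, 0⟩
  n001 := ⟨0, 0, 0, 0⟩
  n002 := ⟨0, 0, 0, 0⟩
  n010 := ⟨0, 0, 0, 0⟩
  n011 := ⟨0, 0, 0, 0⟩
  n020 := ⟨0, 0, 0, 0⟩
  n100 := ⟨0, 0, 0, 0⟩
  n101 := ⟨0, 0, 0, 0⟩
  n110 := ⟨0, 0, 0, 0⟩
  n200 := ⟨0, 0, 0, 0⟩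
  n201 := ⟨0, 0, 0, 0⟩
  n210 := ⟨0, 0, 0, 0⟩
  n300 := ⟨0, 0, 0, 0⟩
  n400 := ⟨0, 0, 0, 0⟩
  n500 := ⟨0, 0, 0, 0⟩
  e00 := ⟨0, 0, 0, 0⟩
  e01 := ⟨0, 0, 0, 0⟩
  e02 := ⟨0, 0, 0, 0⟩
  e03 := ⟨0, 0, 0, 0⟩
  e10 := ⟨0, 0, 0, 0⟩
  e11 := ⟨0, 0, 0, 0⟩
  B1 := 0

def p4 : Pm where
  ec := ⟨9999220736, 0, 0, 0⟩
  bc := ⟨0, 0, 0, 0⟩
  nn := ⟨5497558138880, 0, 0, 0⟩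
  tj := ⟨13194139533312, 0, 0, 0⟩
  ca := ⟨549755813888, 0, 0, 0⟩
  cb := ⟨439697276928, 0, 0, 0⟩
  cc := ⟨0, 0, 0, 0⟩
  ax := ⟨0, 0, 0, 0⟩
  ay := ⟨0, 0, 0, 0⟩
  xa := ⟨0, 0, 0, 0⟩
  C2 := ⟨0, 0, 0, 0⟩
  wr := ⟨0, 745445261312, 0, 0⟩
  wi := ⟨5872294035456, 0, 0, 0⟩
  w1 := ⟨0, 40973988003840, 0, 0⟩
  h000 := ⟨0, 2870490496, 0, 0⟩
  h001 := ⟨0, 5453288960, 0, 0⟩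
  h002 := ⟨23746943488, 0, 0, 0⟩
  h003 := ⟨0, 35097650240, 0, 0⟩
  h010 := ⟨0, 1104418333888, 0, 0⟩
  h011 := ⟨0, 153407063616, 0, 0⟩
  h012 := ⟨0, 0, 0, 0⟩
  h020 := ⟨51486161619328, 0, 0, 0⟩
  h021 := ⟨0, 0, 0, 0⟩
  h030 := ⟨0, 0, 0, 0⟩
  h100 := ⟨0, 261787584, 0, 0⟩
  h101 := ⟨243981568, 0, 0, 0⟩
  h102 := ⟨0, 476635072, 0, 0⟩
  h110 := ⟨0, 143339214080, 0, 0⟩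
  h111 := ⟨0, 359866960256, 0, 0⟩
  h120 := ⟨0, 0, 0, 0⟩
  h200 := ⟨0, 135675328, 0, 0⟩
  h201 := ⟨0, 354055424, 0, 0⟩
  h202 := ⟨780366016, 0, 0, 0⟩
  h210 := ⟨40707091648, 0, 0, 0⟩
  h211 := ⟨0, 0, 0, 0⟩
  h300 := ⟨67049280, 0, 0, 0⟩
  h301 := ⟨20811456, 0, 0, 0⟩
  h310 := ⟨0, 9857520448, 0, 0⟩
  h400 := ⟨0, 7790016, 0, 0⟩
  h401 := ⟨0, 8563904, 0, 0⟩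
  h410 := ⟨0, 0, 0, 0⟩
  h500 := ⟨858624, 0, 0, 0⟩
  h501 := ⟨0, 0, 0, 0⟩
  h600 := ⟨0, 7040, 0, 0⟩
  h700 := ⟨0, 0, 0, 0⟩
  h800 := ⟨0, 0, 0, 0⟩
  m000 := ⟨1098315792384, 0, 0, 0⟩
  m001 := ⟨0, 177078272, 0, 0⟩
  m002 := ⟨226623488, 0, 0, 0⟩
  m010 := ⟨218212794368, 0, 0, 0⟩
  m100 := ⟨5819924480, 0, 0, 0⟩
  m101 := ⟨19595264, 0, 0, 0⟩
  m110 := ⟨514757558272, 0, 0, 0⟩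
  m200 := ⟨0, 218431488, 0, 0⟩
  m300 := ⟨31916032, 0, 0, 0⟩
  a00 := ⟨69863735296, 0, 0, 0⟩
  a01 := ⟨8936488960, 0, 0, 0⟩
  a02 := ⟨332305268736, 0, 0, 0⟩
  a03 := ⟨0, 839640743936, 0, 0⟩
  a10 := ⟨976034922496, 0, 0, 0⟩
  a11 := ⟨0, 18580457193472, 0, 0⟩
  b00 := ⟨63664619520, 0, 0, 0⟩
  b01 := ⟨1863843840, 0, 0, 0⟩
  b02 := ⟨264803844096, 0, 0, 0⟩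
  b03 := ⟨0, 720985391104, 0, 0⟩
  b10 := ⟨0, 233619718144, 0, 0⟩
  b11 := ⟨0, 14986313728000, 0, 0⟩
  t00 := ⟨788538327040, 0, 0, 0⟩
  t01 := ⟨0, 311397842944, 0, 0⟩
  t02 := ⟨4429783302144, 0, 0, 0⟩
  t03 := ⟨0, 15839646449664, 0, 0⟩
  t10 := ⟨7596378423296, 0, 0, 0⟩
  t11 := ⟨0, 124021423144960, 0, 0⟩
  s00 := ⟨5888803536896, 0, 0, 0⟩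
  s01 := ⟨641266941952, 0, 0, 0⟩
  s02 := ⟨17200752689152, 0, 0, 0⟩
  s03 := ⟨0, 62580611022848, 0, 0⟩
  s10 := ⟨257040154886144, 0, 0, 0⟩
  s11 := ⟨0, 1087341268762624, 0, 0⟩
  g00 := ⟨47951400192, 0, 0, 0⟩
  g01 := ⟨0, 16252709120, 0, 0⟩
  g10 := ⟨7120625037824, 0, 0, 0⟩
  g11 := ⟨0, 0, 0, 0⟩
  f00 := ⟨56195246528, 0, 0, 0⟩
  f01 := ⟨157377140352, 0, 0, 0⟩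
  f10 := ⟨26838333179776, 0, 0, 0⟩
  f11 := ⟨0, 0, 0, 0⟩
  l000 := ⟨0, 0, 0, 0⟩
  l001 := ⟨0, 0, 0, 0⟩
  l002 := ⟨0, 0, 0, 0⟩
  l010 := ⟨0, 0, 0, 0⟩
  l011 := ⟨0, 0, 0, 0⟩
  l020 := ⟨0, 0, 0, 0⟩
  l100 := ⟨0, 0, 0, 0⟩
  l101 := ⟨0, 0, 0, 0⟩
  l102 := ⟨0, 0, 0, 0⟩
  l110 := ⟨0, 0, 0, 0⟩
  l111 := ⟨0, 0, 0, 0⟩
  l120 := ⟨0, 0, 0, 0⟩
  l200 := ⟨0, 0, 0, 0⟩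
  l201 := ⟨0, 0, 0, 0⟩
  l210 := ⟨0, 0, 0, 0⟩
  l300 := ⟨0, 0, 0, 0⟩
  l301 := ⟨0, 0, 0, 0⟩
  l310 := ⟨0, 0, 0, 0⟩
  l400 := ⟨0, 0, 0, 0⟩
  l401 := ⟨0, 0, 0, 0⟩
  l410 := ⟨0, 0, 0, 0⟩
  l500 := ⟨0, 0, 0, 0⟩
  l501 := ⟨0, 0, 0, 0⟩
  l510 := ⟨0, 0, 0, 0⟩
  l600 := ⟨0, 0, 0, 0⟩
  l700 := ⟨0, 0, 0, 0⟩
  l800 := ⟨0, 0, 0, 0⟩
  l900 := ⟨0, 0, 0, 0⟩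
  l1000 := ⟨0, 0, 0, 0⟩
  l1100 := ⟨0, 0, 0, 0⟩
  q00 := ⟨0, 0, 0, 0⟩
  q01 := ⟨0, 0, 0, 0⟩
  q02 := ⟨0, 0, 0, 0⟩
  q03 := ⟨0, 0, 0, 0⟩
  q10 := ⟨0, 0, 0, 0⟩
  q11 := ⟨0, 0, 0, 0⟩
  q12 := ⟨0, 0, 0, 0⟩
  q20 := ⟨0, 0, 0, 0⟩
  q21 := ⟨0, 0, 0, 0⟩
  q30 := ⟨0, 0, 0, 0⟩
  n000 := ⟨0, 0, 0, 0⟩
  n001 := ⟨0, 0, 0, 0⟩
  n002 := ⟨0, 0, 0, 0⟩
  n010 := ⟨0, 0, 0, 0⟩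
  n011 := ⟨0, 0, 0, 0⟩
  n020 := ⟨0, 0, 0, 0⟩
  n100 := ⟨0, 0, 0, 0⟩
  n101 := ⟨0, 0, 0, 0⟩
  n110 := ⟨0, 0, 0, 0⟩
  n200 := ⟨0, 0, 0, 0⟩
  n201 := ⟨0, 0, 0, 0⟩
  n210 := ⟨0, 0, 0, 0⟩
  n300 := ⟨0, 0, 0, 0⟩
  n400 := ⟨0, 0, 0, 0⟩
  n500 := ⟨0, 0, 0, 0⟩
  e00 := ⟨0, 0, 0, 0⟩
  e01 := ⟨0, 0, 0, 0⟩
  e02 := ⟨0, 0, 0, 0⟩
  e03 := ⟨0, 0, 0, 0⟩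
  e10 := ⟨0, 0, 0, 0⟩
  e11 := ⟨0, 0, 0, 0⟩
  B1 := 0

def p5 : Pm where
  ec := ⟨9999220736, 0, 0, 0⟩
  bc := ⟨0, 0, 0, 0⟩
  nn := ⟨6597069766656, 0, 0, 0⟩
  tj := ⟨15393162788864, 0, 0, 0⟩
  ca := ⟨439697276928, 0, 0, 0⟩
  cb := ⟨384936443904, 0, 0, 0⟩
  cc := ⟨0, 0, 0, 0⟩
  ax := ⟨0, 0, 0, 0⟩
  ay := ⟨0, 0, 0, 0⟩
  xa := ⟨0, 0, 0, 0⟩
  C2 := ⟨0, 0, 0, 0⟩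
  wr := ⟨0, 745445261312, 0, 0⟩
  wi := ⟨5872294035456, 0, 0, 0⟩
  w1 := ⟨0, 40973988003840, 0, 0⟩
  h000 := ⟨0, 2870490496, 0, 0⟩
  h001 := ⟨0, 5453288960, 0, 0⟩
  h002 := ⟨23746943488, 0, 0, 0⟩
  h003 := ⟨0, 35097650240, 0, 0⟩
  h010 := ⟨0, 1104418333888, 0, 0⟩
  h011 := ⟨0, 153407063616, 0, 0⟩
  h012 := ⟨0, 0, 0, 0⟩
  h020 := ⟨51486161619328, 0, 0, 0⟩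
  h021 := ⟨0, 0, 0, 0⟩
  h030 := ⟨0, 0, 0, 0⟩
  h100 := ⟨0, 261787584, 0, 0⟩
  h101 := ⟨243981568, 0, 0, 0⟩
  h102 := ⟨0, 476635072, 0, 0⟩
  h110 := ⟨0, 143339214080, 0, 0⟩
  h111 := ⟨0, 359866960256, 0, 0⟩
  h120 := ⟨0, 0, 0, 0⟩
  h200 := ⟨0, 135675328, 0, 0⟩
  h201 := ⟨0, 354055424, 0, 0⟩
  h202 := ⟨780366016, 0, 0, 0⟩
  h210 := ⟨40707091648, 0, 0, 0⟩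
  h211 := ⟨0, 0, 0, 0⟩
  h300 := ⟨67049280, 0, 0, 0⟩
  h301 := ⟨20811456, 0, 0, 0⟩
  h310 := ⟨0, 9857520448, 0, 0⟩
  h400 := ⟨0, 7790016, 0, 0⟩
  h401 := ⟨0, 8563904, 0, 0⟩
  h410 := ⟨0, 0, 0, 0⟩
  h500 := ⟨858624, 0, 0, 0⟩
  h501 := ⟨0, 0, 0, 0⟩
  h600 := ⟨0, 7040, 0, 0⟩
  h700 := ⟨0, 0, 0, 0⟩
  h800 := ⟨0, 0, 0, 0⟩
  m000 := ⟨1098612146176, 0, 0, 0⟩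
  m001 := ⟨0, 301137920, 0, 0⟩
  m002 := ⟨777781248, 0, 0, 0⟩
  m010 := ⟨185245433856, 0, 0, 0⟩
  m100 := ⟨5688983552, 0, 0, 0⟩
  m101 := ⟨24248320, 0, 0, 0⟩
  m110 := ⟨520968339456, 0, 0, 0⟩
  m200 := ⟨0, 188612608, 0, 0⟩
  m300 := ⟨27590656, 0, 0, 0⟩
  a00 := ⟨63664619520, 0, 0, 0⟩
  a01 := ⟨1863843840, 0, 0, 0⟩
  a02 := ⟨264803844096, 0, 0, 0⟩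
  a03 := ⟨0, 720985391104, 0, 0⟩
  a10 := ⟨0, 233619718144, 0, 0⟩
  a11 := ⟨0, 14986313728000, 0, 0⟩
  b00 := ⟨58103037952, 0, 0, 0⟩
  b01 := ⟨0, 2035548160, 0, 0⟩
  b02 := ⟨191497568256, 0, 0, 0⟩
  b03 := ⟨0, 556356730880, 0, 0⟩
  b10 := ⟨0, 1186459025408, 0, 0⟩
  b11 := ⟨0, 13266664620032, 0, 0⟩
  t00 := ⟨718924021760, 0, 0, 0⟩
  t01 := ⟨0, 204525010944, 0, 0⟩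
  t02 := ⟨2840049352704, 0, 0, 0⟩
  t03 := ⟨0, 11743768018944, 0, 0⟩
  t10 := ⟨0, 5644330139648, 0, 0⟩
  t11 := ⟨0, 90439908065280, 0, 0⟩
  s00 := ⟨6677341863936, 0, 0, 0⟩
  s01 := ⟨329869099008, 0, 0, 0⟩
  s02 := ⟨21630535991296, 0, 0, 0⟩
  s03 := ⟨0, 78420257472512, 0, 0⟩
  s10 := ⟨264636533309440, 0, 0, 0⟩
  s11 := ⟨0, 1211362691907584, 0, 0⟩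
  g00 := ⟨47951400192, 0, 0, 0⟩
  g01 := ⟨0, 16252709120, 0, 0⟩
  g10 := ⟨7120625037824, 0, 0, 0⟩
  g11 := ⟨0, 0, 0, 0⟩
  f00 := ⟨56195246528, 0, 0, 0⟩
  f01 := ⟨157377140352, 0, 0, 0⟩
  f10 := ⟨26838333179776, 0, 0, 0⟩
  f11 := ⟨0, 0, 0, 0⟩
  l000 := ⟨0, 0, 0, 0⟩
  l001 := ⟨0, 0, 0, 0⟩
  l002 := ⟨0, 0, 0, 0⟩
  l010 := ⟨0, 0, 0, 0⟩
  l011 := ⟨0, 0, 0, 0⟩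
  l020 := ⟨0, 0, 0, 0⟩
  l100 := ⟨0, 0, 0, 0⟩
  l101 := ⟨0, 0, 0, 0⟩
  l102 := ⟨0, 0, 0, 0⟩
  l110 := ⟨0, 0, 0, 0⟩
  l111 := ⟨0, 0, 0, 0⟩
  l120 := ⟨0, 0, 0, 0⟩
  l200 := ⟨0, 0, 0, 0⟩
  l201 := ⟨0, 0, 0, 0⟩
  l210 := ⟨0, 0, 0, 0⟩
  l300 := ⟨0, 0, 0, 0⟩
  l301 := ⟨0, 0, 0, 0⟩
  l310 := ⟨0, 0, 0, 0⟩
  l400 := ⟨0, 0, 0, 0⟩
  l401 := ⟨0, 0, 0, 0⟩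
  l410 := ⟨0, 0, 0, 0⟩
  l500 := ⟨0, 0, 0, 0⟩
  l501 := ⟨0, 0, 0, 0⟩
  l510 := ⟨0, 0, 0, 0⟩
  l600 := ⟨0, 0, 0, 0⟩
  l700 := ⟨0, 0, 0, 0⟩
  l800 := ⟨0, 0, 0, 0⟩
  l900 := ⟨0, 0, 0, 0⟩
  l1000 := ⟨0, 0, 0, 0⟩
  l1100 := ⟨0, 0, 0, 0⟩
  q00 := ⟨0, 0, 0, 0⟩
  q01 := ⟨0, 0, 0, 0⟩
  q02 := ⟨0, 0, 0, 0⟩
  q03 := ⟨0, 0, 0, 0⟩
  q10 := ⟨0, 0, 0, 0⟩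
  q11 := ⟨0, 0, 0, 0⟩
  q12 := ⟨0, 0, 0, 0⟩
  q20 := ⟨0, 0, 0, 0⟩
  q21 := ⟨0, 0, 0, 0⟩
  q30 := ⟨0, 0, 0, 0⟩
  n000 := ⟨0, 0, 0, 0⟩
  n001 := ⟨0, 0, 0, 0⟩
  n002 := ⟨0, 0, 0, 0⟩
  n010 := ⟨0, 0, 0, 0⟩
  n011 := ⟨0, 0, 0, 0⟩
  n020 := ⟨0, 0, 0, 0⟩
  n100 := ⟨0, 0, 0, 0⟩
  n101 := ⟨0, 0, 0, 0⟩
  n110 := ⟨0, 0, 0, 0⟩
  n200 := ⟨0, 0, 0, 0⟩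
  n201 := ⟨0, 0, 0, 0⟩
  n210 := ⟨0, 0, 0, 0⟩
  n300 := ⟨0, 0, 0, 0⟩
  n400 := ⟨0, 0, 0, 0⟩
  n500 := ⟨0, 0, 0, 0⟩
  e00 := ⟨0, 0, 0, 0⟩
  e01 := ⟨0, 0, 0, 0⟩
  e02 := ⟨0, 0, 0, 0⟩
  e03 := ⟨0, 0, 0, 0⟩
  e10 := ⟨0, 0, 0, 0⟩
  e11 := ⟨0, 0, 0, 0⟩
  B1 := 0

def p6 : Pm where
  ec := ⟨9999220736, 0, 0, 0⟩
  bc := ⟨0, 0, 0, 0⟩
  nn := ⟨7696581394432, 0, 0, 0⟩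
  tj := ⟨17592186044416, 0, 0, 0⟩
  ca := ⟨384936443904, 0, 0, 0⟩
  cb := ⟨329907175424, 0, 0, 0⟩
  cc := ⟨0, 0, 0, 0⟩
  ax := ⟨0, 0, 0, 0⟩
  ay := ⟨0, 0, 0, 0⟩
  xa := ⟨0, 0, 0, 0⟩
  C2 := ⟨0, 0, 0, 0⟩
  wr := ⟨0, 745445261312, 0, 0⟩
  wi := ⟨5872294035456, 0, 0, 0⟩
  w1 := ⟨0, 40973988003840, 0, 0⟩
  h000 := ⟨0, 2870490496, 0, 0⟩
  h001 := ⟨0, 5453288960, 0, 0⟩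
  h002 := ⟨23746943488, 0, 0, 0⟩
  h003 := ⟨0, 35097650240, 0, 0⟩
  h010 := ⟨0, 1104418333888, 0, 0⟩
  h011 := ⟨0, 153407063616, 0, 0⟩
  h012 := ⟨0, 0, 0, 0⟩
  h020 := ⟨51486161619328, 0, 0, 0⟩
  h021 := ⟨0, 0, 0, 0⟩
  h030 := ⟨0, 0, 0, 0⟩
  h100 := ⟨0, 261787584, 0, 0⟩
  h101 := ⟨243981568, 0, 0, 0⟩
  h102 := ⟨0, 476635072, 0, 0⟩
  h110 := ⟨0, 143339214080, 0, 0⟩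
  h111 := ⟨0, 359866960256, 0, 0⟩
  h120 := ⟨0, 0, 0, 0⟩
  h200 := ⟨0, 135675328, 0, 0⟩
  h201 := ⟨0, 354055424, 0, 0⟩
  h202 := ⟨780366016, 0, 0, 0⟩
  h210 := ⟨40707091648, 0, 0, 0⟩
  h211 := ⟨0, 0, 0, 0⟩
  h300 := ⟨67049280, 0, 0, 0⟩
  h301 := ⟨20811456, 0, 0, 0⟩
  h310 := ⟨0, 9857520448, 0, 0⟩
  h400 := ⟨0, 7790016, 0, 0⟩
  h401 := ⟨0, 8563904, 0, 0⟩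
  h410 := ⟨0, 0, 0, 0⟩
  h500 := ⟨858624, 0, 0, 0⟩
  h501 := ⟨0, 0, 0, 0⟩
  h600 := ⟨0, 7040, 0, 0⟩
  h700 := ⟨0, 0, 0, 0⟩
  h800 := ⟨0, 0, 0, 0⟩
  m000 := ⟨1098822320128, 0, 0, 0⟩
  m001 := ⟨0, 372375552, 0, 0⟩
  m002 := ⟨1249378304, 0, 0, 0⟩
  m010 := ⟨158191910912, 0, 0, 0⟩
  m100 := ⟨5585371136, 0, 0, 0⟩
  m101 := ⟨21889024, 0, 0, 0⟩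
  m110 := ⟨527603728384, 0, 0, 0⟩
  m200 := ⟨0, 163905536, 0, 0⟩
  m300 := ⟨23789568, 0, 0, 0⟩
  a00 := ⟨58103037952, 0, 0, 0⟩
  a01 := ⟨0, 2035548160, 0, 0⟩
  a02 := ⟨191497568256, 0, 0, 0⟩
  a03 := ⟨0, 556356730880, 0, 0⟩
  a10 := ⟨0, 1186459025408, 0, 0⟩
  a11 := ⟨0, 13266664620032, 0, 0⟩
  b00 := ⟨53019803648, 0, 0, 0⟩
  b01 := ⟨0, 5298192384, 0, 0⟩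
  b02 := ⟨130356150272, 0, 0, 0⟩
  b03 := ⟨0, 409030688768, 0, 0⟩
  b10 := ⟨0, 1950975393792, 0, 0⟩
  b11 := ⟨0, 11668883177472, 0, 0⟩
  t00 := ⟨656257712128, 0, 0, 0⟩
  t01 := ⟨0, 218235273216, 0, 0⟩
  t02 := ⟨2258507726848, 0, 0, 0⟩
  t03 := ⟨0, 10023123222528, 0, 0⟩
  t10 := ⟨0, 16208740286464, 0, 0⟩
  t11 := ⟨0, 74359592321024, 0, 0⟩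
  s00 := ⟨7396265885696, 0, 0, 0⟩
  s01 := ⟨125344088064, 0, 0, 0⟩
  s02 := ⟨24470585344000, 0, 0, 0⟩
  s03 := ⟨0, 90164025491456, 0, 0⟩
  s10 := ⟨258992203169792, 0, 0, 0⟩
  s11 := ⟨0, 1301802599972864, 0, 0⟩
  g00 := ⟨47951400192, 0, 0, 0⟩
  g01 := ⟨0, 16252709120, 0, 0⟩
  g10 := ⟨7120625037824, 0, 0, 0⟩
  g11 := ⟨0, 0, 0, 0⟩
  f00 := ⟨56195246528, 0, 0, 0⟩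
  f01 := ⟨157377140352, 0, 0, 0⟩
  f10 := ⟨26838333179776, 0, 0, 0⟩
  f11 := ⟨0, 0, 0, 0⟩
  l000 := ⟨0, 0, 0, 0⟩
  l001 := ⟨0, 0, 0, 0⟩
  l002 := ⟨0, 0, 0, 0⟩
  l010 := ⟨0, 0, 0, 0⟩
  l011 := ⟨0, 0, 0, 0⟩
  l020 := ⟨0, 0, 0, 0⟩
  l100 := ⟨0, 0, 0, 0⟩
  l101 := ⟨0, 0, 0, 0⟩
  l102 := ⟨0, 0, 0, 0⟩
  l110 := ⟨0, 0, 0, 0⟩
  l111 := ⟨0, 0, 0, 0⟩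
  l120 := ⟨0, 0, 0, 0⟩
  l200 := ⟨0, 0, 0, 0⟩
  l201 := ⟨0, 0, 0, 0⟩
  l210 := ⟨0, 0, 0, 0⟩
  l300 := ⟨0, 0, 0, 0⟩
  l301 := ⟨0, 0, 0, 0⟩
  l310 := ⟨0, 0, 0, 0⟩
  l400 := ⟨0, 0, 0, 0⟩
  l401 := ⟨0, 0, 0, 0⟩
  l410 := ⟨0, 0, 0, 0⟩
  l500 := ⟨0, 0, 0, 0⟩
  l501 := ⟨0, 0, 0, 0⟩
  l510 := ⟨0, 0, 0, 0⟩
  l600 := ⟨0, 0, 0, 0⟩
  l700 := ⟨0, 0, 0, 0⟩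
  l800 := ⟨0, 0, 0, 0⟩
  l900 := ⟨0, 0, 0, 0⟩
  l1000 := ⟨0, 0, 0, 0⟩
  l1100 := ⟨0, 0, 0, 0⟩
  q00 := ⟨0, 0, 0, 0⟩
  q01 := ⟨0, 0, 0, 0⟩
  q02 := ⟨0, 0, 0, 0⟩
  q03 := ⟨0, 0, 0, 0⟩
  q10 := ⟨0, 0, 0, 0⟩
  q11 := ⟨0, 0, 0, 0⟩
  q12 := ⟨0, 0, 0, 0⟩
  q20 := ⟨0, 0, 0, 0⟩
  q21 := ⟨0, 0, 0, 0⟩
  q30 := ⟨0, 0, 0, 0⟩
  n000 := ⟨0, 0, 0, 0⟩
  n001 := ⟨0, 0, 0, 0⟩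
  n002 := ⟨0, 0, 0, 0⟩
  n010 := ⟨0, 0, 0, 0⟩
  n011 := ⟨0, 0, 0, 0⟩
  n020 := ⟨0, 0, 0, 0⟩
  n100 := ⟨0, 0, 0, 0⟩
  n101 := ⟨0, 0, 0, 0⟩
  n110 := ⟨0, 0, 0, 0⟩
  n200 := ⟨0, 0, 0, 0⟩
  n201 := ⟨0, 0, 0, 0⟩
  n210 := ⟨0, 0, 0, 0⟩
  n300 := ⟨0, 0, 0, 0⟩
  n400 := ⟨0, 0, 0, 0⟩
  n500 := ⟨0, 0, 0, 0⟩
  e00 := ⟨0, 0, 0, 0⟩
  e01 := ⟨0, 0, 0, 0⟩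
  e02 := ⟨0, 0, 0, 0⟩
  e03 := ⟨0, 0, 0, 0⟩
  e10 := ⟨0, 0, 0, 0⟩
  e11 := ⟨0, 0, 0, 0⟩
  B1 := 0

def p7 : Pm where
  ec := ⟨9999220736, 0, 0, 0⟩
  bc := ⟨0, 0, 0, 0⟩
  nn := ⟨8796093022208, 0, 0, 0⟩
  tj := ⟨19791209299968, 0, 0, 0⟩
  ca := ⟨329907175424, 0, 0, 0⟩
  cb := ⟨274877906944, 0, 0, 0⟩
  cc := ⟨0, 0, 0, 0⟩
  ax := ⟨0, 0, 0, 0⟩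
  ay := ⟨0, 0, 0, 0⟩
  xa := ⟨0, 0, 0, 0⟩
  C2 := ⟨0, 0, 0, 0⟩
  wr := ⟨0, 745445261312, 0, 0⟩
  wi := ⟨5872294035456, 0, 0, 0⟩
  w1 := ⟨0, 40973988003840, 0, 0⟩
  h000 := ⟨0, 2870490496, 0, 0⟩
  h001 := ⟨0, 5453288960, 0, 0⟩
  h002 := ⟨23746943488, 0, 0, 0⟩
  h003 := ⟨0, 35097650240, 0, 0⟩
  h010 := ⟨0, 1104418333888, 0, 0⟩
  h011 := ⟨0, 153407063616, 0, 0⟩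
  h012 := ⟨0, 0, 0, 0⟩
  h020 := ⟨51486161619328, 0, 0, 0⟩
  h021 := ⟨0, 0, 0, 0⟩
  h030 := ⟨0, 0, 0, 0⟩
  h100 := ⟨0, 261787584, 0, 0⟩
  h101 := ⟨243981568, 0, 0, 0⟩
  h102 := ⟨0, 476635072, 0, 0⟩
  h110 := ⟨0, 143339214080, 0, 0⟩
  h111 := ⟨0, 359866960256, 0, 0⟩
  h120 := ⟨0, 0, 0, 0⟩
  h200 := ⟨0, 135675328, 0, 0⟩
  h201 := ⟨0, 354055424, 0, 0⟩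
  h202 := ⟨780366016, 0, 0, 0⟩
  h210 := ⟨40707091648, 0, 0, 0⟩
  h211 := ⟨0, 0, 0, 0⟩
  h300 := ⟨67049280, 0, 0, 0⟩
  h301 := ⟨20811456, 0, 0, 0⟩
  h310 := ⟨0, 9857520448, 0, 0⟩
  h400 := ⟨0, 7790016, 0, 0⟩
  h401 := ⟨0, 8563904, 0, 0⟩
  h410 := ⟨0, 0, 0, 0⟩
  h500 := ⟨858624, 0, 0, 0⟩
  h501 := ⟨0, 0, 0, 0⟩
  h600 := ⟨0, 7040, 0, 0⟩
  h700 := ⟨0, 0, 0, 0⟩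
  h800 := ⟨0, 0, 0, 0⟩
  m000 := ⟨1098974232576, 0, 0, 0⟩
  m001 := ⟨0, 318308352, 0, 0⟩
  m002 := ⟨1175846912, 0, 0, 0⟩
  m010 := ⟨132715577344, 0, 0, 0⟩
  m100 := ⟨5501747200, 0, 0, 0⟩
  m101 := ⟨24772608, 0, 0, 0⟩
  m110 := ⟨529231642624, 0, 0, 0⟩
  m200 := ⟨0, 143261696, 0, 0⟩
  m300 := ⟨20643840, 0, 0, 0⟩
  a00 := ⟨53019803648, 0, 0, 0⟩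
  a01 := ⟨0, 5298192384, 0, 0⟩
  a02 := ⟨130356150272, 0, 0, 0⟩
  a03 := ⟨0, 409030688768, 0, 0⟩
  a10 := ⟨0, 1950975393792, 0, 0⟩
  a11 := ⟨0, 11668883177472, 0, 0⟩
  b00 := ⟨48362749952, 0, 0, 0⟩
  b01 := ⟨0, 7125401600, 0, 0⟩
  b02 := ⟨71192870912, 0, 0, 0⟩
  b03 := ⟨0, 257661075456, 0, 0⟩
  b10 := ⟨0, 2574826995712, 0, 0⟩
  b11 := ⟨0, 10093328924672, 0, 0⟩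
  t00 := ⟨598969745408, 0, 0, 0⟩
  t01 := ⟨0, 236787269632, 0, 0⟩
  t02 := ⟨1843048546304, 0, 0, 0⟩
  t03 := ⟨0, 8643064692736, 0, 0⟩
  t10 := ⟨0, 24666148110336, 0, 0⟩
  t11 := ⟨0, 59973159878656, 0, 0⟩
  s00 := ⟨8052523597824, 0, 0, 0⟩
  s01 := ⟨0, 92891185152, 0, 0⟩
  s02 := ⟨26729093070848, 0, 0, 0⟩
  s03 := ⟨0, 100187148713984, 0, 0⟩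
  s10 := ⟨242783462883328, 0, 0, 0⟩
  s11 := ⟨0, 1376162192293888, 0, 0⟩
  g00 := ⟨47951400192, 0, 0, 0⟩
  g01 := ⟨0, 16252709120, 0, 0⟩
  g10 := ⟨7120625037824, 0, 0, 0⟩
  g11 := ⟨0, 0, 0, 0⟩
  f00 := ⟨56195246528, 0, 0, 0⟩
  f01 := ⟨157377140352, 0, 0, 0⟩
  f10 := ⟨26838333179776, 0, 0, 0⟩
  f11 := ⟨0, 0, 0, 0⟩
  l000 := ⟨0, 0, 0, 0⟩
  l001 := ⟨0, 0, 0, 0⟩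
  l002 := ⟨0, 0, 0, 0⟩
  l010 := ⟨0, 0, 0, 0⟩
  l011 := ⟨0, 0, 0, 0⟩
  l020 := ⟨0, 0, 0, 0⟩
  l100 := ⟨0, 0, 0, 0⟩
  l101 := ⟨0, 0, 0, 0⟩
  l102 := ⟨0, 0, 0, 0⟩
  l110 := ⟨0, 0, 0, 0⟩
  l111 := ⟨0, 0, 0, 0⟩
  l120 := ⟨0, 0, 0, 0⟩
  l200 := ⟨0, 0, 0, 0⟩
  l201 := ⟨0, 0, 0, 0⟩
  l210 := ⟨0, 0, 0, 0⟩
  l300 := ⟨0, 0, 0, 0⟩
  l301 := ⟨0, 0, 0, 0⟩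
  l310 := ⟨0, 0, 0, 0⟩
  l400 := ⟨0, 0, 0, 0⟩
  l401 := ⟨0, 0, 0, 0⟩
  l410 := ⟨0, 0, 0, 0⟩
  l500 := ⟨0, 0, 0, 0⟩
  l501 := ⟨0, 0, 0, 0⟩
  l510 := ⟨0, 0, 0, 0⟩
  l600 := ⟨0, 0, 0, 0⟩
  l700 := ⟨0, 0, 0, 0⟩
  l800 := ⟨0, 0, 0, 0⟩
  l900 := ⟨0, 0, 0, 0⟩
  l1000 := ⟨0, 0, 0, 0⟩
  l1100 := ⟨0, 0, 0, 0⟩
  q00 := ⟨0, 0, 0, 0⟩
  q01 := ⟨0, 0, 0, 0⟩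
  q02 := ⟨0, 0, 0, 0⟩
  q03 := ⟨0, 0, 0, 0⟩
  q10 := ⟨0, 0, 0, 0⟩
  q11 := ⟨0, 0, 0, 0⟩
  q12 := ⟨0, 0, 0, 0⟩
  q20 := ⟨0, 0, 0, 0⟩
  q21 := ⟨0, 0, 0, 0⟩
  q30 := ⟨0, 0, 0, 0⟩
  n000 := ⟨0, 0, 0, 0⟩
  n001 := ⟨0, 0, 0, 0⟩
  n002 := ⟨0, 0, 0, 0⟩
  n010 := ⟨0, 0, 0, 0⟩
  n011 := ⟨0, 0, 0, 0⟩
  n020 := ⟨0, 0, 0, 0⟩
  n100 := ⟨0, 0, 0, 0⟩
  n101 := ⟨0, 0, 0, 0⟩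
  n110 := ⟨0, 0, 0, 0⟩
  n200 := ⟨0, 0, 0, 0⟩
  n201 := ⟨0, 0, 0, 0⟩
  n210 := ⟨0, 0, 0, 0⟩
  n300 := ⟨0, 0, 0, 0⟩
  n400 := ⟨0, 0, 0, 0⟩
  n500 := ⟨0, 0, 0, 0⟩
  e00 := ⟨0, 0, 0, 0⟩
  e01 := ⟨0, 0, 0, 0⟩
  e02 := ⟨0, 0, 0, 0⟩
  e03 := ⟨0, 0, 0, 0⟩
  e10 := ⟨0, 0, 0, 0⟩
  e11 := ⟨0, 0, 0, 0⟩
  B1 := 0

def p8 : Pm where
  ec := ⟨9999220736, 0, 0, 0⟩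
  bc := ⟨0, 0, 0, 0⟩
  nn := ⟨9895604649984, 0, 0, 0⟩
  tj := ⟨21990232555520, 0, 0, 0⟩
  ca := ⟨274877906944, 0, 0, 0⟩
  cb := ⟨274877906944, 0, 0, 0⟩
  cc := ⟨0, 0, 0, 0⟩
  ax := ⟨0, 0, 0, 0⟩
  ay := ⟨0, 0, 0, 0⟩
  xa := ⟨0, 0, 0, 0⟩
  C2 := ⟨0, 0, 0, 0⟩
  wr := ⟨0, 745445261312, 0, 0⟩
  wi := ⟨5872294035456, 0, 0, 0⟩
  w1 := ⟨0, 40973988003840, 0, 0⟩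
  h000 := ⟨0, 2870490496, 0, 0⟩
  h001 := ⟨0, 5453288960, 0, 0⟩
  h002 := ⟨23746943488, 0, 0, 0⟩
  h003 := ⟨0, 35097650240, 0, 0⟩
  h010 := ⟨0, 1104418333888, 0, 0⟩
  h011 := ⟨0, 153407063616, 0, 0⟩
  h012 := ⟨0, 0, 0, 0⟩
  h020 := ⟨51486161619328, 0, 0, 0⟩
  h021 := ⟨0, 0, 0, 0⟩
  h030 := ⟨0, 0, 0, 0⟩
  h100 := ⟨0, 261787584, 0, 0⟩
  h101 := ⟨243981568, 0, 0, 0⟩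
  h102 := ⟨0, 476635072, 0, 0⟩
  h110 := ⟨0, 143339214080, 0, 0⟩
  h111 := ⟨0, 359866960256, 0, 0⟩
  h120 := ⟨0, 0, 0, 0⟩
  h200 := ⟨0, 135675328, 0, 0⟩
  h201 := ⟨0, 354055424, 0, 0⟩
  h202 := ⟨780366016, 0, 0, 0⟩
  h210 := ⟨40707091648, 0, 0, 0⟩
  h211 := ⟨0, 0, 0, 0⟩
  h300 := ⟨67049280, 0, 0, 0⟩
  h301 := ⟨20811456, 0, 0, 0⟩
  h310 := ⟨0, 9857520448, 0, 0⟩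
  h400 := ⟨0, 7790016, 0, 0⟩
  h401 := ⟨0, 8563904, 0, 0⟩
  h410 := ⟨0, 0, 0, 0⟩
  h500 := ⟨858624, 0, 0, 0⟩
  h501 := ⟨0, 0, 0, 0⟩
  h600 := ⟨0, 7040, 0, 0⟩
  h700 := ⟨0, 0, 0, 0⟩
  h800 := ⟨0, 0, 0, 0⟩
  m000 := ⟨1099096260608, 0, 0, 0⟩
  m001 := ⟨0, 463536128, 0, 0⟩
  m002 := ⟨2023817216, 0, 0, 0⟩
  m010 := ⟨121387089920, 0, 0, 0⟩
  m100 := ⟨5434441728, 0, 0, 0⟩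
  m101 := ⟨0, 8912896, 0, 0⟩
  m110 := ⟨537135611904, 0, 0, 0⟩
  m200 := ⟨0, 125370368, 0, 0⟩
  m300 := ⟨17825792, 0, 0, 0⟩
  a00 := ⟨48362749952, 0, 0, 0⟩
  a01 := ⟨0, 7125401600, 0, 0⟩
  a02 := ⟨71192870912, 0, 0, 0⟩
  a03 := ⟨0, 257661075456, 0, 0⟩
  a10 := ⟨0, 2574826995712, 0, 0⟩
  a11 := ⟨0, 10093328924672, 0, 0⟩
  b00 := ⟨44123619328, 0, 0, 0⟩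
  b01 := ⟨0, 8276869120, 0, 0⟩
  b02 := ⟨19367919616, 0, 0, 0⟩
  b03 := ⟨0, 119472652288, 0, 0⟩
  b10 := ⟨0, 3119601483776, 0, 0⟩
  b11 := ⟨0, 8260808409088, 0, 0⟩
  t00 := ⟨546436743168, 0, 0, 0⟩
  t01 := ⟨0, 238092353536, 0, 0⟩
  t02 := ⟨1347253043200, 0, 0, 0⟩
  t03 := ⟨0, 7011576053760, 0, 0⟩
  t10 := ⟨0, 31582902157312, 0, 0⟩
  t11 := ⟨0, 45973147287552, 0, 0⟩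
  s00 := ⟨8651493343232, 0, 0, 0⟩
  s01 := ⟨0, 329678454784, 0, 0⟩
  s02 := ⟨28572141617152, 0, 0, 0⟩
  s03 := ⟨0, 108830213406720, 0, 0⟩
  s10 := ⟨218117314772992, 0, 0, 0⟩
  s11 := ⟨0, 1436135352172544, 0, 0⟩
  g00 := ⟨47951400192, 0, 0, 0⟩
  g01 := ⟨0, 16252709120, 0, 0⟩
  g10 := ⟨7120625037824, 0, 0, 0⟩
  g11 := ⟨0, 0, 0, 0⟩
  f00 := ⟨56195246528, 0, 0, 0⟩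
  f01 := ⟨157377140352, 0, 0, 0⟩
  f10 := ⟨26838333179776, 0, 0, 0⟩
  f11 := ⟨0, 0, 0, 0⟩
  l000 := ⟨0, 0, 0, 0⟩
  l001 := ⟨0, 0, 0, 0⟩
  l002 := ⟨0, 0, 0, 0⟩
  l010 := ⟨0, 0, 0, 0⟩
  l011 := ⟨0, 0, 0, 0⟩
  l020 := ⟨0, 0, 0, 0⟩
  l100 := ⟨0, 0, 0, 0⟩
  l101 := ⟨0, 0, 0, 0⟩
  l102 := ⟨0, 0, 0, 0⟩
  l110 := ⟨0, 0, 0, 0⟩
  l111 := ⟨0, 0, 0, 0⟩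
  l120 := ⟨0, 0, 0, 0⟩
  l200 := ⟨0, 0, 0, 0⟩
  l201 := ⟨0, 0, 0, 0⟩
  l210 := ⟨0, 0, 0, 0⟩
  l300 := ⟨0, 0, 0, 0⟩
  l301 := ⟨0, 0, 0, 0⟩
  l310 := ⟨0, 0, 0, 0⟩
  l400 := ⟨0, 0, 0, 0⟩
  l401 := ⟨0, 0, 0, 0⟩
  l410 := ⟨0, 0, 0, 0⟩
  l500 := ⟨0, 0, 0, 0⟩
  l501 := ⟨0, 0, 0, 0⟩
  l510 := ⟨0, 0, 0, 0⟩
  l600 := ⟨0, 0, 0, 0⟩
  l700 := ⟨0, 0, 0, 0⟩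
  l800 := ⟨0, 0, 0, 0⟩
  l900 := ⟨0, 0, 0, 0⟩
  l1000 := ⟨0, 0, 0, 0⟩
  l1100 := ⟨0, 0, 0, 0⟩
  q00 := ⟨0, 0, 0, 0⟩
  q01 := ⟨0, 0, 0, 0⟩
  q02 := ⟨0, 0, 0, 0⟩
  q03 := ⟨0, 0, 0, 0⟩
  q10 := ⟨0, 0, 0, 0⟩
  q11 := ⟨0, 0, 0, 0⟩
  q12 := ⟨0, 0, 0, 0⟩
  q20 := ⟨0, 0, 0, 0⟩
  q21 := ⟨0, 0, 0, 0⟩
  q30 := ⟨0, 0, 0, 0⟩
  n000 := ⟨0, 0, 0, 0⟩
  n001 := ⟨0, 0, 0, 0⟩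
  n002 := ⟨0, 0, 0, 0⟩
  n010 := ⟨0, 0, 0, 0⟩
  n011 := ⟨0, 0, 0, 0⟩
  n020 := ⟨0, 0, 0, 0⟩
  n100 := ⟨0, 0, 0, 0⟩
  n101 := ⟨0, 0, 0, 0⟩
  n110 := ⟨0, 0, 0, 0⟩
  n200 := ⟨0, 0, 0, 0⟩
  n201 := ⟨0, 0, 0, 0⟩
  n210 := ⟨0, 0, 0, 0⟩
  n300 := ⟨0, 0, 0, 0⟩
  n400 := ⟨0, 0, 0, 0⟩
  n500 := ⟨0, 0, 0, 0⟩
  e00 := ⟨0, 0, 0, 0⟩
  e01 := ⟨0, 0, 0, 0⟩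
  e02 := ⟨0, 0, 0, 0⟩
  e03 := ⟨0, 0, 0, 0⟩
  e10 := ⟨0, 0, 0, 0⟩
  e11 := ⟨0, 0, 0, 0⟩
  B1 := 0

def p9 : Pm where
  ec := ⟨9999220736, 0, 0, 0⟩
  bc := ⟨0, 0, 0, 0⟩
  nn := ⟨10995116277760, 0, 0, 0⟩
  tj := ⟨24189255811072, 0, 0, 0⟩
  ca := ⟨274877906944, 0, 0, 0⟩
  cb := ⟨274877906944, 0, 0, 0⟩
  cc := ⟨0, 0, 0, 0⟩
  ax := ⟨0, 0, 0, 0⟩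
  ay := ⟨0, 0, 0, 0⟩
  xa := ⟨0, 0, 0, 0⟩
  C2 := ⟨0, 0, 0, 0⟩
  wr := ⟨0, 745445261312, 0, 0⟩
  wi := ⟨5872294035456, 0, 0, 0⟩
  w1 := ⟨0, 40973988003840, 0, 0⟩
  h000 := ⟨0, 2870490496, 0, 0⟩
  h001 := ⟨0, 5453288960, 0, 0⟩
  h002 := ⟨23746943488, 0, 0, 0⟩
  h003 := ⟨0, 35097650240, 0, 0⟩
  h010 := ⟨0, 1104418333888, 0, 0⟩
  h011 := ⟨0, 153407063616, 0, 0⟩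
  h012 := ⟨0, 0, 0, 0⟩
  h020 := ⟨51486161619328, 0, 0, 0⟩
  h021 := ⟨0, 0, 0, 0⟩
  h030 := ⟨0, 0, 0, 0⟩
  h100 := ⟨0, 261787584, 0, 0⟩
  h101 := ⟨243981568, 0, 0, 0⟩
  h102 := ⟨0, 476635072, 0, 0⟩
  h110 := ⟨0, 143339214080, 0, 0⟩
  h111 := ⟨0, 359866960256, 0, 0⟩
  h120 := ⟨0, 0, 0, 0⟩
  h200 := ⟨0, 135675328, 0, 0⟩
  h201 := ⟨0, 354055424, 0, 0⟩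
  h202 := ⟨780366016, 0, 0, 0⟩
  h210 := ⟨40707091648, 0, 0, 0⟩
  h211 := ⟨0, 0, 0, 0⟩
  h300 := ⟨67049280, 0, 0, 0⟩
  h301 := ⟨20811456, 0, 0, 0⟩
  h310 := ⟨0, 9857520448, 0, 0⟩
  h400 := ⟨0, 7790016, 0, 0⟩
  h401 := ⟨0, 8563904, 0, 0⟩
  h410 := ⟨0, 0, 0, 0⟩
  h500 := ⟨858624, 0, 0, 0⟩
  h501 := ⟨0, 0, 0, 0⟩
  h600 := ⟨0, 7040, 0, 0⟩
  h700 := ⟨0, 0, 0, 0⟩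
  h800 := ⟨0, 0, 0, 0⟩
  m000 := ⟨1099172413440, 0, 0, 0⟩
  m001 := ⟨0, 467009536, 0, 0⟩
  m002 := ⟨2117861376, 0, 0, 0⟩
  m010 := ⟨109993263104, 0, 0, 0⟩
  m100 := ⟨5381423104, 0, 0, 0⟩
  m101 := ⟨65536, 0, 0, 0⟩
  m110 := ⟨539798470656, 0, 0, 0⟩
  m200 := ⟨0, 111935488, 0, 0⟩
  m300 := ⟨15532032, 0, 0, 0⟩
  a00 := ⟨44123619328, 0, 0, 0⟩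
  a01 := ⟨0, 8276869120, 0, 0⟩
  a02 := ⟨19367919616, 0, 0, 0⟩
  a03 := ⟨0, 119472652288, 0, 0⟩
  a10 := ⟨0, 3119601483776, 0, 0⟩
  a11 := ⟨0, 8260808409088, 0, 0⟩
  b00 := ⟨40283013120, 0, 0, 0⟩
  b01 := ⟨0, 9873588224, 0, 0⟩
  b02 := ⟨0, 13078167552, 0, 0⟩
  b03 := ⟨0, 40110850048, 0, 0⟩
  b10 := ⟨0, 3607106224128, 0, 0⟩
  b11 := ⟨0, 6284006195200, 0, 0⟩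
  t00 := ⟨498599591936, 0, 0, 0⟩
  t01 := ⟨0, 227065069568, 0, 0⟩
  t02 := ⟨547135094784, 0, 0, 0⟩
  t03 := ⟨0, 4485427888128, 0, 0⟩
  t10 := ⟨0, 37538859450368, 0, 0⟩
  t11 := ⟨0, 27774553161728, 0, 0⟩
  s00 := ⟨9197930086400, 0, 0, 0⟩
  s01 := ⟨0, 567770808320, 0, 0⟩
  s02 := ⟨29919394660352, 0, 0, 0⟩
  s03 := ⟨0, 115841789460480, 0, 0⟩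
  s10 := ⟨186534412615680, 0, 0, 0⟩
  s11 := ⟨0, 1482108499460096, 0, 0⟩
  g00 := ⟨47951400192, 0, 0, 0⟩
  g01 := ⟨0, 16252709120, 0, 0⟩
  g10 := ⟨7120625037824, 0, 0, 0⟩
  g11 := ⟨0, 0, 0, 0⟩
  f00 := ⟨56195246528, 0, 0, 0⟩
  f01 := ⟨157377140352, 0, 0, 0⟩
  f10 := ⟨26838333179776, 0, 0, 0⟩
  f11 := ⟨0, 0, 0, 0⟩
  l000 := ⟨0, 0, 0, 0⟩
  l001 := ⟨0, 0, 0, 0⟩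
  l002 := ⟨0, 0, 0, 0⟩
  l010 := ⟨0, 0, 0, 0⟩
  l011 := ⟨0, 0, 0, 0⟩
  l020 := ⟨0, 0, 0, 0⟩
  l100 := ⟨0, 0, 0, 0⟩
  l101 := ⟨0, 0, 0, 0⟩
  l102 := ⟨0, 0, 0, 0⟩
  l110 := ⟨0, 0, 0, 0⟩
  l111 := ⟨0, 0, 0, 0⟩
  l120 := ⟨0, 0, 0, 0⟩
  l200 := ⟨0, 0, 0, 0⟩
  l201 := ⟨0, 0, 0, 0⟩
  l210 := ⟨0, 0, 0, 0⟩
  l300 := ⟨0, 0, 0, 0⟩
  l301 := ⟨0, 0, 0, 0⟩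
  l310 := ⟨0, 0, 0, 0⟩
  l400 := ⟨0, 0, 0, 0⟩
  l401 := ⟨0, 0, 0, 0⟩
  l410 := ⟨0, 0, 0, 0⟩
  l500 := ⟨0, 0, 0, 0⟩
  l501 := ⟨0, 0, 0, 0⟩
  l510 := ⟨0, 0, 0, 0⟩
  l600 := ⟨0, 0, 0, 0⟩
  l700 := ⟨0, 0, 0, 0⟩
  l800 := ⟨0, 0, 0, 0⟩
  l900 := ⟨0, 0, 0, 0⟩
  l1000 := ⟨0, 0, 0, 0⟩
  l1100 := ⟨0, 0, 0, 0⟩
  q00 := ⟨0, 0, 0, 0⟩
  q01 := ⟨0, 0, 0, 0⟩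
  q02 := ⟨0, 0, 0, 0⟩
  q03 := ⟨0, 0, 0, 0⟩
  q10 := ⟨0, 0, 0, 0⟩
  q11 := ⟨0, 0, 0, 0⟩
  q12 := ⟨0, 0, 0, 0⟩
  q20 := ⟨0, 0, 0, 0⟩
  q21 := ⟨0, 0, 0, 0⟩
  q30 := ⟨0, 0, 0, 0⟩
  n000 := ⟨0, 0, 0, 0⟩
  n001 := ⟨0, 0, 0, 0⟩
  n002 := ⟨0, 0, 0, 0⟩
  n010 := ⟨0, 0, 0, 0⟩
  n011 := ⟨0, 0, 0, 0⟩
  n020 := ⟨0, 0, 0, 0⟩
  n100 := ⟨0, 0, 0, 0⟩
  n101 := ⟨0, 0, 0, 0⟩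
  n110 := ⟨0, 0, 0, 0⟩
  n200 := ⟨0, 0, 0, 0⟩
  n201 := ⟨0, 0, 0, 0⟩
  n210 := ⟨0, 0, 0, 0⟩
  n300 := ⟨0, 0, 0, 0⟩
  n400 := ⟨0, 0, 0, 0⟩
  n500 := ⟨0, 0, 0, 0⟩
  e00 := ⟨0, 0, 0, 0⟩
  e01 := ⟨0, 0, 0, 0⟩
  e02 := ⟨0, 0, 0, 0⟩
  e03 := ⟨0, 0, 0, 0⟩
  e10 := ⟨0, 0, 0, 0⟩
  e11 := ⟨0, 0, 0, 0⟩
  B1 := 0

def p10 : Pm where
  ec := ⟨9999220736, 0, 0, 0⟩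
  bc := ⟨0, 0, 0, 0⟩
  nn := ⟨12094627905536, 0, 0, 0⟩
  tj := ⟨26388279066624, 0, 0, 0⟩
  ca := ⟨274877906944, 0, 0, 0⟩
  cb := ⟨0, 0, 0, 0⟩
  cc := ⟨0, 0, 0, 0⟩
  ax := ⟨0, 0, 0, 0⟩
  ay := ⟨274877906944, 0, 0, 0⟩
  xa := ⟨7916484034560, 0, 0, 0⟩
  C2 := ⟨1422034991104, 0, 0, 0⟩
  wr := ⟨0, 745445261312, 0, 0⟩
  wi := ⟨5872294035456, 0, 0, 0⟩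
  w1 := ⟨0, 40973988003840, 0, 0⟩
  h000 := ⟨0, 2870490496, 0, 0⟩
  h001 := ⟨0, 5453288960, 0, 0⟩
  h002 := ⟨23746943488, 0, 0, 0⟩
  h003 := ⟨0, 35097650240, 0, 0⟩
  h010 := ⟨0, 1104418333888, 0, 0⟩
  h011 := ⟨0, 153407063616, 0, 0⟩
  h012 := ⟨0, 0, 0, 0⟩
  h020 := ⟨51486161619328, 0, 0, 0⟩
  h021 := ⟨0, 0, 0, 0⟩
  h030 := ⟨0, 0, 0, 0⟩
  h100 := ⟨0, 261787584, 0, 0⟩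
  h101 := ⟨243981568, 0, 0, 0⟩
  h102 := ⟨0, 476635072, 0, 0⟩
  h110 := ⟨0, 143339214080, 0, 0⟩
  h111 := ⟨0, 359866960256, 0, 0⟩
  h120 := ⟨0, 0, 0, 0⟩
  h200 := ⟨0, 135675328, 0, 0⟩
  h201 := ⟨0, 354055424, 0, 0⟩
  h202 := ⟨780366016, 0, 0, 0⟩
  h210 := ⟨40707091648, 0, 0, 0⟩
  h211 := ⟨0, 0, 0, 0⟩
  h300 := ⟨67049280, 0, 0, 0⟩
  h301 := ⟨20811456, 0, 0, 0⟩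
  h310 := ⟨0, 9857520448, 0, 0⟩
  h400 := ⟨0, 7790016, 0, 0⟩
  h401 := ⟨0, 8563904, 0, 0⟩
  h410 := ⟨0, 0, 0, 0⟩
  h500 := ⟨858624, 0, 0, 0⟩
  h501 := ⟨0, 0, 0, 0⟩
  h600 := ⟨0, 7040, 0, 0⟩
  h700 := ⟨0, 0, 0, 0⟩
  h800 := ⟨0, 0, 0, 0⟩
  m000 := ⟨1099618975744, 0, 0, 0⟩
  m001 := ⟨673382400, 0, 0, 0⟩
  m002 := ⟨157220864, 0, 0, 0⟩
  m010 := ⟨198229884928, 0, 0, 0⟩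
  m100 := ⟨5106106368, 0, 0, 0⟩
  m101 := ⟨45481984, 0, 0, 0⟩
  m110 := ⟨534671982592, 0, 0, 0⟩
  m200 := ⟨0, 45809664, 0, 0⟩
  m300 := ⟨8388608, 0, 0, 0⟩
  a00 := ⟨40283013120, 0, 0, 0⟩
  a01 := ⟨0, 9873588224, 0, 0⟩
  a02 := ⟨0, 13078167552, 0, 0⟩
  a03 := ⟨0, 40110850048, 0, 0⟩
  a10 := ⟨0, 3607106224128, 0, 0⟩
  a11 := ⟨0, 6284006195200, 0, 0⟩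
  b00 := ⟨0, 0, 0, 0⟩
  b01 := ⟨0, 0, 0, 0⟩
  b02 := ⟨0, 0, 0, 0⟩
  b03 := ⟨0, 0, 0, 0⟩
  b10 := ⟨0, 0, 0, 0⟩
  b11 := ⟨0, 0, 0, 0⟩
  t00 := ⟨455255130112, 0, 0, 0⟩
  t01 := ⟨0, 223685640192, 0, 0⟩
  t02 := ⟨2827943936, 0, 0, 0⟩
  t03 := ⟨0, 2761131491328, 0, 0⟩
  t10 := ⟨0, 42874068205568, 0, 0⟩
  t11 := ⟨0, 8093636493312, 0, 0⟩
  s00 := ⟨9696529678336, 0, 0, 0⟩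
  s01 := ⟨0, 794835877888, 0, 0⟩
  s02 := ⟨30466529755136, 0, 0, 0⟩
  s03 := ⟨0, 120327217348608, 0, 0⟩
  s10 := ⟨148995553165312, 0, 0, 0⟩
  s11 := ⟨0, 1509883052621824, 0, 0⟩
  g00 := ⟨47951400192, 0, 0, 0⟩
  g01 := ⟨0, 16252709120, 0, 0⟩
  g10 := ⟨7120625037824, 0, 0, 0⟩
  g11 := ⟨0, 0, 0, 0⟩
  f00 := ⟨56195246528, 0, 0, 0⟩
  f01 := ⟨157377140352, 0, 0, 0⟩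
  f10 := ⟨26838333179776, 0, 0, 0⟩
  f11 := ⟨0, 0, 0, 0⟩
  l000 := ⟨0, 0, 0, 0⟩
  l001 := ⟨0, 0, 0, 0⟩
  l002 := ⟨0, 0, 0, 0⟩
  l010 := ⟨0, 0, 0, 0⟩
  l011 := ⟨0, 0, 0, 0⟩
  l020 := ⟨0, 0, 0, 0⟩
  l100 := ⟨0, 0, 0, 0⟩
  l101 := ⟨0, 0, 0, 0⟩
  l102 := ⟨0, 0, 0, 0⟩
  l110 := ⟨0, 0, 0, 0⟩
  l111 := ⟨0, 0, 0, 0⟩
  l120 := ⟨0, 0, 0, 0⟩
  l200 := ⟨0, 0, 0, 0⟩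
  l201 := ⟨0, 0, 0, 0⟩
  l210 := ⟨0, 0, 0, 0⟩
  l300 := ⟨0, 0, 0, 0⟩
  l301 := ⟨0, 0, 0, 0⟩
  l310 := ⟨0, 0, 0, 0⟩
  l400 := ⟨0, 0, 0, 0⟩
  l401 := ⟨0, 0, 0, 0⟩
  l410 := ⟨0, 0, 0, 0⟩
  l500 := ⟨0, 0, 0, 0⟩
  l501 := ⟨0, 0, 0, 0⟩
  l510 := ⟨0, 0, 0, 0⟩
  l600 := ⟨0, 0, 0, 0⟩
  l700 := ⟨0, 0, 0, 0⟩
  l800 := ⟨0, 0, 0, 0⟩
  l900 := ⟨0, 0, 0, 0⟩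
  l1000 := ⟨0, 0, 0, 0⟩
  l1100 := ⟨0, 0, 0, 0⟩
  q00 := ⟨0, 0, 0, 0⟩
  q01 := ⟨0, 0, 0, 0⟩
  q02 := ⟨0, 0, 0, 0⟩
  q03 := ⟨0, 0, 0, 0⟩
  q10 := ⟨0, 0, 0, 0⟩
  q11 := ⟨0, 0, 0, 0⟩
  q12 := ⟨0, 0, 0, 0⟩
  q20 := ⟨0, 0, 0, 0⟩
  q21 := ⟨0, 0, 0, 0⟩
  q30 := ⟨0, 0, 0, 0⟩
  n000 := ⟨0, 0, 0, 0⟩
  n001 := ⟨0, 0, 0, 0⟩
  n002 := ⟨0, 0, 0, 0⟩
  n010 := ⟨0, 0, 0, 0⟩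
  n011 := ⟨0, 0, 0, 0⟩
  n020 := ⟨0, 0, 0, 0⟩
  n100 := ⟨0, 0, 0, 0⟩
  n101 := ⟨0, 0, 0, 0⟩
  n110 := ⟨0, 0, 0, 0⟩
  n200 := ⟨0, 0, 0, 0⟩
  n201 := ⟨0, 0, 0, 0⟩
  n210 := ⟨0, 0, 0, 0⟩
  n300 := ⟨0, 0, 0, 0⟩
  n400 := ⟨0, 0, 0, 0⟩
  n500 := ⟨0, 0, 0, 0⟩
  e00 := ⟨0, 0, 0, 0⟩
  e01 := ⟨0, 0, 0, 0⟩
  e02 := ⟨0, 0, 0, 0⟩
  e03 := ⟨0, 0, 0, 0⟩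
  e10 := ⟨0, 0, 0, 0⟩
  e11 := ⟨0, 0, 0, 0⟩
  B1 := 1869169557504

def pF : Pm where
  ec := ⟨9999220736, 0, 0, 0⟩
  bc := ⟨0, 0, 0, 0⟩
  nn := ⟨0, 0, 0, 0⟩
  tj := ⟨2199023255552, 0, 0, 0⟩
  ca := ⟨1099511627776, 0, 0, 0⟩
  cb := ⟨0, 0, 0, 0⟩
  cc := ⟨879662989312, 0, 0, 0⟩
  ax := ⟨0, 0, 0, 0⟩
  ay := ⟨0, 0, 0, 0⟩
  xa := ⟨0, 0, 0, 0⟩
  C2 := ⟨0, 0, 0, 0⟩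
  wr := ⟨0, 745445261312, 0, 0⟩
  wi := ⟨5872294035456, 0, 0, 0⟩
  w1 := ⟨0, 40973988003840, 0, 0⟩
  h000 := ⟨0, 2870490496, 0, 0⟩
  h001 := ⟨0, 5453288960, 0, 0⟩
  h002 := ⟨23746943488, 0, 0, 0⟩
  h003 := ⟨0, 35097650240, 0, 0⟩
  h010 := ⟨0, 1104418333888, 0, 0⟩
  h011 := ⟨0, 153407063616, 0, 0⟩
  h012 := ⟨0, 0, 0, 0⟩
  h020 := ⟨51486161619328, 0, 0, 0⟩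
  h021 := ⟨0, 0, 0, 0⟩
  h030 := ⟨0, 0, 0, 0⟩
  h100 := ⟨0, 261787584, 0, 0⟩
  h101 := ⟨243981568, 0, 0, 0⟩
  h102 := ⟨0, 476635072, 0, 0⟩
  h110 := ⟨0, 143339214080, 0, 0⟩
  h111 := ⟨0, 359866960256, 0, 0⟩
  h120 := ⟨0, 0, 0, 0⟩
  h200 := ⟨0, 135675328, 0, 0⟩
  h201 := ⟨0, 354055424, 0, 0⟩
  h202 := ⟨780366016, 0, 0, 0⟩
  h210 := ⟨40707091648, 0, 0, 0⟩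
  h211 := ⟨0, 0, 0, 0⟩
  h300 := ⟨67049280, 0, 0, 0⟩
  h301 := ⟨20811456, 0, 0, 0⟩
  h310 := ⟨0, 9857520448, 0, 0⟩
  h400 := ⟨0, 7790016, 0, 0⟩
  h401 := ⟨0, 8563904, 0, 0⟩
  h410 := ⟨0, 0, 0, 0⟩
  h500 := ⟨858624, 0, 0, 0⟩
  h501 := ⟨0, 0, 0, 0⟩
  h600 := ⟨0, 7040, 0, 0⟩
  h700 := ⟨0, 0, 0, 0⟩
  h800 := ⟨0, 0, 0, 0⟩
  m000 := ⟨0, 0, 0, 0⟩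
  m001 := ⟨0, 0, 0, 0⟩
  m002 := ⟨0, 0, 0, 0⟩
  m010 := ⟨0, 0, 0, 0⟩
  m100 := ⟨0, 0, 0, 0⟩
  m101 := ⟨0, 0, 0, 0⟩
  m110 := ⟨0, 0, 0, 0⟩
  m200 := ⟨0, 0, 0, 0⟩
  m300 := ⟨0, 0, 0, 0⟩
  a00 := ⟨115257966592, 0, 0, 0⟩
  a01 := ⟨145726570496, 0, 0, 0⟩
  a02 := ⟨98520203264, 0, 0, 0⟩
  a03 := ⟨412677636096, 0, 0, 0⟩
  a10 := ⟨10650790330368, 0, 0, 0⟩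
  a11 := ⟨0, 49230900232192, 0, 0⟩
  b00 := ⟨0, 0, 0, 0⟩
  b01 := ⟨0, 0, 0, 0⟩
  b02 := ⟨0, 0, 0, 0⟩
  b03 := ⟨0, 0, 0, 0⟩
  b10 := ⟨0, 0, 0, 0⟩
  b11 := ⟨0, 0, 0, 0⟩
  t00 := ⟨1679998844928, 0, 0, 0⟩
  t01 := ⟨1515795578880, 0, 0, 0⟩
  t02 := ⟨0, 380250554368, 0, 0⟩
  t03 := ⟨0, 7044112449536, 0, 0⟩
  t10 := ⟨0, 352536100864, 0, 0⟩
  t11 := ⟨85960894578688, 0, 0, 0⟩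
  s00 := ⟨0, 0, 0, 0⟩
  s01 := ⟨0, 0, 0, 0⟩
  s02 := ⟨0, 0, 0, 0⟩
  s03 := ⟨0, 0, 0, 0⟩
  s10 := ⟨0, 0, 0, 0⟩
  s11 := ⟨0, 0, 0, 0⟩
  g00 := ⟨47951400192, 0, 0, 0⟩
  g01 := ⟨0, 16252709120, 0, 0⟩
  g10 := ⟨7120625037824, 0, 0, 0⟩
  g11 := ⟨0, 0, 0, 0⟩
  f00 := ⟨56195246528, 0, 0, 0⟩
  f01 := ⟨157377140352, 0, 0, 0⟩
  f10 := ⟨26838333179776, 0, 0, 0⟩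
  f11 := ⟨0, 0, 0, 0⟩
  l000 := ⟨3446755678400, 0, 0, 0⟩
  l001 := ⟨3110648640, 0, 0, 0⟩
  l002 := ⟨0, 0, 0, 0⟩
  l010 := ⟨3026482546496, 0, 0, 0⟩
  l011 := ⟨0, 0, 0, 0⟩
  l020 := ⟨0, 0, 0, 0⟩
  l100 := ⟨1708891246784, 0, 0, 0⟩
  l101 := ⟨0, 8834563456, 0, 0⟩
  l102 := ⟨0, 0, 0, 0⟩
  l110 := ⟨0, 42154594529344, 0, 0⟩
  l111 := ⟨0, 0, 0, 0⟩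
  l120 := ⟨0, 0, 0, 0⟩
  l200 := ⟨105215852352, 0, 0, 0⟩
  l201 := ⟨23414513024, 0, 0, 0⟩
  l210 := ⟨89605643974144, 0, 0, 0⟩
  l300 := ⟨2889960314624, 0, 0, 0⟩
  l301 := ⟨0, 54563815488, 0, 0⟩
  l310 := ⟨0, 247959990427584, 0, 0⟩
  l400 := ⟨0, 8783661547840, 0, 0⟩
  l401 := ⟨63572741952, 0, 0, 0⟩
  l410 := ⟨258695722428992, 0, 0, 0⟩
  l500 := ⟨21111630828096, 0, 0, 0⟩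
  l501 := ⟨0, 42830096320, 0, 0⟩
  l510 := ⟨0, 187380545015936, 0, 0⟩
  l600 := ⟨0, 40914425804288, 0, 0⟩
  l700 := ⟨55815942989120, 0, 0, 0⟩
  l800 := ⟨0, 62003602173312, 0, 0⟩
  l900 := ⟨40981172371904, 0, 0, 0⟩
  l1000 := ⟨0, 19719990812224, 0, 0⟩
  l1100 := ⟨0, 715694437440, 0, 0⟩
  q00 := ⟨2956144768, 0, 0, 0⟩
  q01 := ⟨0, 37349739072, 0, 0⟩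
  q02 := ⟨264314271232, 0, 0, 0⟩
  q03 := ⟨0, 0, 0, 0⟩
  q10 := ⟨0, 70935489792, 0, 0⟩
  q11 := ⟨5596366766208, 0, 0, 0⟩
  q12 := ⟨0, 0, 0, 0⟩
  q20 := ⟨290739276008704, 0, 0, 0⟩
  q21 := ⟨0, 0, 0, 0⟩
  q30 := ⟨0, 0, 0, 0⟩
  n000 := ⟨1093869371392, 0, 0, 0⟩
  n001 := ⟨273350656, 0, 0, 0⟩
  n002 := ⟨13848674304, 0, 0, 0⟩
  n010 := ⟨790328573952, 0, 0, 0⟩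
  n011 := ⟨2924011388928, 0, 0, 0⟩
  n020 := ⟨564286898503680, 0, 0, 0⟩
  n100 := ⟨47006089216, 0, 0, 0⟩
  n101 := ⟨3862036480, 0, 0, 0⟩
  n110 := ⟨1865054879744, 0, 0, 0⟩
  n200 := ⟨0, 105875636224, 0, 0⟩
  n201 := ⟨2393112576, 0, 0, 0⟩
  n210 := ⟨8348485156864, 0, 0, 0⟩
  n300 := ⟨271796404224, 0, 0, 0⟩
  n400 := ⟨0, 325480284160, 0, 0⟩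
  n500 := ⟨91821899776, 0, 0, 0⟩
  e00 := ⟨189352378368, 0, 0, 0⟩
  e01 := ⟨494678900736, 0, 0, 0⟩
  e02 := ⟨0, 1640736227328, 0, 0⟩
  e03 := ⟨8416782909440, 0, 0, 0⟩
  e10 := ⟨18550725541888, 0, 0, 0⟩
  e11 := ⟨0, 59334519095296, 0, 0⟩
  B1 := 0

end Pool.Agent.helper12.K100
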