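import Pool.Agent.helper12.GS.FBQP
import Pool.Agent.helper12.K100.P

/-!
Generated certificates.
-/

namespace Pool.Agent.helper12.K100

open Pool.Agent.helper31.IX (Cov cov_split)
open Pool.Agent.helper12.GS
open Pool.Agent.helper14.QF (cov_E)

theorem FB : Cov 1 (FBQ.prog0 pF) [(10003415040, 991952896), (137438953472, 137438953472), (549755813888, 549755813888)] :=
  cov_E (FBQ.chkB0_eq pF) (.n 1 (.n 1 (.n 2 (.n 2 .l .l) (.n 0 .l .l)) (.n 2 (.n 2 .l .l) (.n 1 .l .l))) (.n 1 (.n 2 (.n 2 .l .l) (.n 1 .l (.n 1 .l .l))) (.n 2 (.n 2 .l (.n 1 .l .l)) (.n 1 (.n 2 .l .l) (.n 2 .l .l)))))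
    [(10003415040, 991952896), (137438953472, 137438953472), (549755813888, 549755813888)] rfl (by decide +kernel)

end Pool.Agent.helper12.K100
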